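import Pool.Agent.Run7.h696.CA.SUB
import Pool.Agent.Run7.h225.HG.Tup
import Pool.Agent.Run7.h696.CF.Ev

/-!
# De Rham-Betti classes in all tensor spaces of hypergeometric motives at correlated algebraic fibres

Let `α_1, …, α_n` be rational numbers which are not integers with the sum `0`, `n ≥ 2`, `θ = z d/dz` and
`Q(x) = ∏_j (x + α_j)`. The fibres of the family of hypergeometric motives `θ^n - z Q(θ)` occur in the cohomology of smooth
projective varieties (toric hypersurfaces). Their period matrices near `z = 0` are `A(z) Y(z) Ω` with the matrix `Y` of the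
derivatives of the Frobenius solutions (the monodromy at `0` is maximally unipotent), `A` over a number field `(z)` and `Ω`
constant (the periods of the limit); the matrix `A(z)` can be omitted if `z` is algebraic.

For finitely many such equations `e_j` and linear polynomials `ℓ_j(t) = a_j t + b_j` over `ℚ` we consider the `j`-th family at
the fibre `1 / ℓ_j(ξ)`, for example one family at the fibres `1 / ξ, 1 / (ξ - 1), …, 1 / (ξ - s)`. The fibres are correlated:
the points of the product family lie on one rational curve in the product of the bases. Let `ξ_1, …, ξ_k` be algebraic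
integers and `M_ij` the motive of the family `e_j` at `1 / ℓ_j(ξ_i)`, and let `M_0` be any object over a number field with
period matrix `C₀`, for example the cohomology of a fixed smooth projective variety.

For a number field `K ⊂ ℂ` a `K`-subtorsor is a subset `T` of `GL` which is defined by polynomials over `K`, of any degree,
and closed under `x y⁻¹ z`. The torsor of motivic isomorphisms of `H_dR` and `H_B` is one and contains the period matrix
`c = C₀ ⊕ ⨁_ij (Y_j(1 / ℓ_j(ξ_i)) Ω_ij)ᵗ` of `M_0 ⊕ ⨁ M_ij`, and Grothendieck's conjecture implies that it is contained in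
all others with `c ∈ T`, up to connected components. Every de Rham-Betti class over `K` in a tensor space of
`M = M_0 ⊕ ⨁ M_ij` defines a `K`-subtorsor. We show, for all number fields `K` of degree `≤ D` at once and almost all tuples
`ξ` of algebraic integers of degree `≤ g`:

1. `T` is stable under `1 × ∏_ij G_ij`, where `G_ij` is the symplectic group or the special linear group of the Betti
   realisation of `M_ij`: there are no relations between the motives, and none of any degree of the kind considered besides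
   the obvious ones;
2. `T` contains all points `C₀ ⊕ ⨁_ij (X_ij Ω_ij)ᵗ` with `X_ij` in the group given by the bilinear relation and the
   determinant;
3. all de Rham-Betti classes over `K` in all tensor spaces `M^{⊗ p} ⊗ (M^∨)^{⊗ q}` are invariant under `1 × ∏_ij G_ij`. By the
   first fundamental theorem of the invariant theory of these groups (not formalised here) they are combinations of products of
   classes of `M_0`, of the polarisations and the identities and of the determinants of the `M_ij`.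

The exceptional set has at most `C T^(-c) N^k` elements if there are `N` algebraic integers with conjugates of size `≤ T`, and
all parameters may tend to infinity with `T`. Only the case of the subtorsors is treated, so the theorem says that the Zariski
closure of the period point is not contained in any smaller subtorsor; its dimension is not determined.

Proof. Outside of the exceptional set all relations of bounded degree of `c` over `ℚ` hold for `g c`, `g ∈ ∏ G_ij`, by the
theorem on correlated algebraic fibres (`Pool/Agent/Run7/h696/CA/FinA.lean`). By helper123's theorem on commutators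
(`Pool/Agent/Y123/GN/E2.lean`, starting tree) this implies that all `K`-subtorsors are stable under the commutator group of the
group generated by the unipotent one-parameter groups, and the groups `Sp` and `SL` are perfect and generated by unipotent
elements. (This argument is that of helper309's theorem on all families at one fibre, `Pool/Agent/Run7/h309/ST/Core.lean`.)
-/

set_option autoImplicit false

open PowerSeries Pool.Agent.Y119.HZ Pool.Agent.Run7.h225.HG Pool.Agent.Run7.h696.CF Run7.h893.HO Pool.Agent.Run7.h696.CA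

namespace Pool.Agent.Results.MP_bf54cf_ag.CorrelatedFibresAllTensors

/-- A hypergeometric equation `θ^n f = z ∏_j (θ + α_j) f`. -/
structure Eqn where
  n : ℕ
  α : Fin n → ℚ

/-- the dual equation (the exponents at infinity are `-α_j`) -/
def Eqn.dual (e : Eqn) : Eqn := ⟨e.n, fun j => -e.α j⟩

/-- the multiset of the fractional parts of the `α_j` -/
def Eqn.frac (e : Eqn) : Multiset ℚ := Multiset.map (fun j => Int.fract (e.α j)) Finset.univ.val

/-- the polynomial `Q = ∏_j (x + α_j)` -/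
noncomputable def Eqn.poly (e : Eqn) : Polynomial ℚ := ∏ j, (Polynomial.X + Polynomial.C (e.α j))

/-- `Q(-x) = Q(x)` -/
def Eqn.Symplectic (e : Eqn) : Prop := e.poly.comp (-Polynomial.X) = e.poly

/-- The order is at least two, the exponents at infinity are not integers, their sum is `0`, and either the fractional parts
of the `α_j` and of the `-α_j` are different multisets or `Q(-x) = Q(x)`. -/
def Eqn.Admissible (e : Eqn) : Prop :=
  2 ≤ e.n ∧ (∀ j, ∀ a : ℤ, e.α j ≠ a) ∧ ∑ j, e.α j = 0 ∧ (e.frac ≠ e.dual.frac ∨ e.Symplectic)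

/-- A list of equations `e_j`, linear polynomials `ℓ_j(t) = a_j t + b_j` and an integer `τ`: the equations are admissible,
`a_j ≠ 0` and `ℓ_j(τ) ≤ 0`, and if two polynomials have the value `1` at the same point, then the exponents at infinity
of the two equations, and of one of them and of the dual of the other one, are different modulo `ℤ`. -/
def Good {r : ℕ} (e : Fin r → Eqn) (a b : Fin r → ℚ) (τ : ℤ) : Prop :=
  (∀ j, (e j).Admissible ∧ a j ≠ 0 ∧ a j * τ + b j ≤ 0) ∧
  ∀ i j, i ≠ j → (1 - b i) / a i = (1 - b j) / a j → (e i).frac ≠ (e j).frac ∧ (e i).frac ≠ (e j).dual.frac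

/-- the power series `k + ε` in the variable `ε` -/
noncomputable def shift (k : ℕ) : PowerSeries ℚ := C (k : ℚ) + X

/-- `a_k(ε) = ∏_{l < k} Q(l + ε) / (l + 1 + ε)^n`. The series `∑_k a_k(ε) z^(k + ε)` solves the equation
`(θ^n - z Q(θ)) f = ε^n z^ε`, hence its coefficients `f_j` at `ε^j` with `j < n` are solutions of the homogeneous
equation. -/
noncomputable def Eqn.frob (e : Eqn) (k : ℕ) : PowerSeries ℚ :=
  ∏ l ∈ Finset.range k, (Polynomial.aeval (shift l) e.poly * ((shift (l + 1))⁻¹) ^ e.n)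

/-- The matrix with the entries `(θ^i f_j)(z)`, `|z| < 1`, where `f_j(z)` is the coefficient of `ε^j` in the series
`∑_k a_k(ε) z^(k + ε)`, `z^ε = ∑_a (log z)^a ε^a / a!`, with the value `l` of `log z`. -/
noncomputable def Eqn.Y (e : Eqn) (z l : ℂ) : Matrix (Fin e.n) (Fin e.n) ℂ :=
  Matrix.of fun i j => ∑ a ∈ Finset.range ((j : ℕ) + 1), l ^ a / (a.factorial : ℂ) *
    ∑' k : ℕ, ((coeff ((j : ℕ) - a) (shift k ^ (i : ℕ) * e.frob k) : ℚ) : ℂ) * z ^ k

/-- The matrix of the alternating form: the entry `(i, j)` is `(-1)^i q_{i+j+1-n}` for `i + j + 1 ≥ n` and `0`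
otherwise, where `q_l` are the coefficients of `Q`. -/
noncomputable def Eqn.J (e : Eqn) : Matrix (Fin e.n) (Fin e.n) ℂ :=
  Matrix.of fun i j => if e.n ≤ (i : ℕ) + j + 1 then (((-1) ^ (i : ℕ) * e.poly.coeff (i + j + 1 - e.n) : ℚ) : ℂ) else 0

/-- The torsor (a group) of the equation: `det X = 1`, and `Xᵀ J X = J` if `Q(-x) = Q(x)`. -/
def Eqn.G (e : Eqn) : Set (Matrix (Fin e.n) (Fin e.n) ℂ) :=
  {X | X.det = 1 ∧ (e.Symplectic → X.transpose * e.J * X = e.J)}

open Classical in
/-- the form: `J` if `Q(-x) = Q(x)`, and zero otherwise -/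
noncomputable def Eqn.form (e : Eqn) : Matrix (Fin e.n) (Fin e.n) ℂ := if e.Symplectic then e.J else 0

/-- `ξ` is an algebraic integer of degree at most `g` all of whose conjugates have absolute value at most `T` -/
def House (g T : ℕ) (ξ : ℂ) : Prop :=
  IsIntegral ℤ ξ ∧ (minpoly ℚ ξ).natDegree ≤ g ∧ ∀ z : ℂ, Polynomial.aeval z (minpoly ℚ ξ) = 0 → ‖z‖ ≤ T

/-- For a logarithm `l` of `ξ - τ` the logarithm `l + Log a + Log(ℓ(ξ) / (a (ξ - τ)))` of `ℓ(ξ)`, `ℓ(t) = a t + b`, with
principal values `Log`. -/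
noncomputable def branch (a b : ℚ) (τ : ℤ) (ξ l : ℂ) : ℂ :=
  l + Complex.log (a : ℂ) + Complex.log (((a : ℂ) * ξ + b) / ((a : ℂ) * (ξ - τ)))

/-- some `ξ_i` is `τ` or some `ℓ_j(ξ_i)` has absolute value at most `1` -/
def Small {r k : ℕ} (a b : Fin r → ℚ) (τ : ℤ) (ξ : Fin k → ℂ) : Prop :=
  ∃ i, ξ i = τ ∨ ∃ j, ‖(a j : ℂ) * ξ i + b j‖ ≤ 1

/-- `T` is (the set of complex points of) a `K`-subtorsor of `GL_B = Iso (M_dR, M_B)`: it is closed under `x y⁻¹ z`, and
it is defined in `GL_B` by polynomials with coefficients in `K`. -/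
def IsSubtorsor (K : Subfield ℂ) {B : Type} [Fintype B] [DecidableEq B] (T : Set (Matrix B B ℂ)) : Prop :=
  (∀ x ∈ T, ∀ y ∈ T, ∀ z ∈ T, x * y⁻¹ * z ∈ T) ∧ ∃ I : Set (MvPolynomial (B × B) K), ∀ x : Matrix B B ℂ, x ∈ T ↔
    IsUnit x ∧ ∀ p ∈ I, MvPolynomial.eval (fun b => x b.1 b.2) (MvPolynomial.map (algebraMap K ℂ) p) = 0

/-- `g` has determinant `1` and respects the form `B` (any form if `B = 0`) -/
def Special {n : ℕ} (B g : Matrix (Fin n) (Fin n) ℂ) : Prop := g.det = 1 ∧ g * B * g.transpose = B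

/-- the order of the equation of the block `q`: there are `k r` blocks, the block `q` belongs to the point with the number
`q.divNat` and to the equation with the number `q.modNat` -/
abbrev size {r : ℕ} (e : Fin r → Eqn) (k : ℕ) (q : Fin (k * r)) : ℕ := (e q.modNat).n

/-- matrices, one for each block -/
abbrev Blocks {r : ℕ} (e : Fin r → Eqn) (k : ℕ) : Type := ∀ q : Fin (k * r), Matrix (Fin (size e k q)) (Fin (size e k q)) ℂ

/-- the index set of the bases of `M_0 ⊕ ⨁_q M_q` -/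
abbrev Index {r : ℕ} (r₀ : ℕ) (e : Fin r → Eqn) (k : ℕ) : Type := Fin r₀ ⊕ Σ q : Fin (k * r), Fin (size e k q)

/-- the block matrix `x ⊕ ⨁_q X_q` -/
noncomputable def total {r k r₀ : ℕ} {e : Fin r → Eqn} (x : Matrix (Fin r₀) (Fin r₀) ℂ) (X : Blocks e k) :
    Matrix (Index r₀ e k) (Index r₀ e k) ℂ :=
  Matrix.fromBlocks x 0 0 (Matrix.blockDiagonal' X)

/-- the period matrices `(Y_j(1 / ℓ_j(ξ_i)) Ω_ij)ᵗ` (rows: Betti, columns: de Rham), with the branches of the logarithms of the
`ℓ_j(ξ_i)` given by `l_i` -/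
noncomputable def periods {r k : ℕ} (e : Fin r → Eqn) (a b : Fin r → ℚ) (τ : ℤ)
    (Ω : Fin k → ∀ j, Matrix (Fin (e j).n) (Fin (e j).n) ℂ) (ξ l : Fin k → ℂ) : Blocks e k := fun q =>
  ((e q.modNat).Y (1 / ((a q.modNat : ℂ) * ξ q.divNat + b q.modNat))
    (-branch (a q.modNat) (b q.modNat) τ (ξ q.divNat) (l q.divNat)) * Ω q.divNat q.modNat).transpose

/-- the forms `Ω_ijᵗ F_j Ω_ij` in the Betti realisations, where `F_j` is the form of the equation -/
noncomputable def betti {r k : ℕ} (e : Fin r → Eqn) (Ω : Fin k → ∀ j, Matrix (Fin (e j).n) (Fin (e j).n) ℂ) : Blocks e k :=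
  fun q => (Ω q.divNat q.modNat).transpose * (e q.modNat).form * Ω q.divNat q.modNat

/-- The action of an invertible matrix on the mixed tensors of type `(p, q)`: it acts by `x` on the first `p` indices and
by the contragredient on the others. -/
noncomputable def tens {B : Type} [Fintype B] [DecidableEq B] (p q : ℕ) (x : Matrix B B ℂ) :
    Matrix ((Fin p → B) × (Fin q → B)) ((Fin p → B) × (Fin q → B)) ℂ :=
  Matrix.of fun I J => (∏ s, x (I.1 s) (J.1 s)) * ∏ t, x⁻¹ (J.2 t) (I.2 t)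

/-- The conclusion for one tuple: for all logarithms `l_i` of the `ξ_i - τ` and all number fields `K` of degree at most `D`
1. all `K`-subtorsors `T` which contain the period matrix `c = C₀ ⊕ ⨁_ij (Y_j(1 / ℓ_j(ξ_i)) Ω_ij)ᵗ` are stable under the
   products of the symplectic and special linear groups,
2. they contain the points of the torsor of the periods of the fibres,
3. if `C₀` and all `Ω_ij` are invertible, then for all `p` and `q` every de Rham-Betti class over `K` in the tensor space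
   `M^{⊗ p} ⊗ (M^∨)^{⊗ q}`, that is, every rational vector `v` on the Betti side which is the image of a vector `u` with
   coordinates in `K` on the de Rham side, is invariant under these groups. -/
def Full {r k r₀ : ℕ} (D : ℕ) (C₀ : Matrix (Fin r₀) (Fin r₀) ℂ) (e : Fin r → Eqn) (a b : Fin r → ℚ) (τ : ℤ)
    (Ω : Fin k → ∀ j, Matrix (Fin (e j).n) (Fin (e j).n) ℂ) (ξ : Fin k → ℂ) : Prop :=
  ∀ l : Fin k → ℂ, (∀ i, Complex.exp (l i) = ξ i - τ) →
  ∀ K : Subfield ℂ, FiniteDimensional ℚ K → Module.finrank ℚ K ≤ D →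
  (∀ T : Set (Matrix (Index r₀ e k) (Index r₀ e k) ℂ), IsSubtorsor K T → total C₀ (periods e a b τ Ω ξ l) ∈ T →
    (∀ g : Blocks e k, (∀ q, Special (betti e Ω q) (g q)) → ∀ x ∈ T, total 1 g * x ∈ T) ∧
    ∀ X : Blocks e k, (∀ q, X q ∈ (e q.modNat).G) →
      total C₀ (fun q => (X q * Ω q.divNat q.modNat).transpose : Blocks e k) ∈ T) ∧
  (IsUnit C₀ → (∀ i j, IsUnit (Ω i j)) → ∀ (p q : ℕ) (u : (Fin p → Index r₀ e k) × (Fin q → Index r₀ e k) → K)
    (v : (Fin p → Index r₀ e k) × (Fin q → Index r₀ e k) → ℚ),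
    Matrix.mulVec (tens p q (total C₀ (periods e a b τ Ω ξ l))) (fun J => (u J : ℂ)) = (fun I => (v I : ℂ)) →
    ∀ g : Blocks e k, (∀ q, Special (betti e Ω q) (g q)) →
      Matrix.mulVec (tens p q (total 1 g)) (fun I => (v I : ℂ)) = fun I => (v I : ℂ))

/-- the numerator and the denominator are at most `B` -/
def RatSize (q : ℚ) (B : ℕ) : Prop := |q.num| ≤ B ∧ q.den ≤ B

/-- the orders of the equations, the numerators and the denominators of their exponents and of the coefficients of the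
`ℓ_j`, and `|τ|` are at most `B` -/
def Size {r : ℕ} (e : Fin r → Eqn) (a b : Fin r → ℚ) (τ : ℤ) (B : ℕ) : Prop :=
  (∀ j, (e j).n ≤ B ∧ ∀ i, RatSize ((e j).α i) B) ∧ (∀ j, RatSize (a j) B) ∧ (∀ j, RatSize (b j) B) ∧ |τ| ≤ B

/-- For all complex matrices `C₀` (of order `r₀`) and `Ω_ij` the number of the `k`-tuples of algebraic integers of degree
`≤ g` with conjugates of size `≤ T` which are small or do not satisfy `Full D` is at most `ε N^k`, where `N` is the number of
all these algebraic integers. -/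
def Bound {r : ℕ} (k g D r₀ : ℕ) (e : Fin r → Eqn) (a b : Fin r → ℚ) (τ : ℤ) (T : ℕ) (ε : ℝ) : Prop :=
  ∀ (C₀ : Matrix (Fin r₀) (Fin r₀) ℂ) (Ω : Fin k → ∀ j, Matrix (Fin (e j).n) (Fin (e j).n) ℂ),
    {ξ : Fin k → ℂ | (∀ i, House g T (ξ i)) ∧ (Small a b τ ξ ∨ ¬ Full D C₀ e a b τ Ω ξ)}.Finite ∧
    (({ξ : Fin k → ℂ | (∀ i, House g T (ξ i)) ∧ (Small a b τ ξ ∨ ¬ Full D C₀ e a b τ Ω ξ)}.ncard : ℕ) : ℝ) ≤
      ε * (({ξ : ℂ | House g T ξ}.ncard : ℕ) : ℝ) ^ k

theorem frob_eq (e : Eqn) (k : ℕ) : e.frob k = Pool.Agent.Y119.HY.aq e.n e.poly k := rfl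

theorem J_eq (e : Eqn) : e.J = Pool.Agent.Y119.HY.cm (Pool.Agent.Y119.HY.Jm e.n e.poly) := by
  ext i j
  rw [Pool.Agent.Y119.HY.cm_apply]
  unfold Eqn.J Pool.Agent.Y119.HY.Jm
  rw [Matrix.of_apply, Matrix.of_apply]
  split_ifs
  · rfl
  · simp

theorem Y_eq (e : Eqn) (z l : ℂ) : e.Y z l = Pool.Agent.Y119.HY.Hf (Pool.Agent.Y119.HY.Hc e.n e.poly) z *
    Pool.Agent.Y119.HY.E (Pool.Agent.Y119.HY.cm (Pool.Agent.Y119.HY.Am e.n)) l := by
  ext i j
  unfold Eqn.Y
  rw [Matrix.of_apply, Matrix.mul_apply]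
  have hE : ∀ c : Fin e.n, Pool.Agent.Y119.HY.E (Pool.Agent.Y119.HY.cm (Pool.Agent.Y119.HY.Am e.n))
      l c j = ∑ a ∈ Finset.range e.n, if (j : ℕ) = c + a then l ^ a / (a.factorial : ℂ) else 0 := by
    intro c
    unfold Pool.Agent.Y119.HY.E
    rw [Matrix.sum_apply]
    refine Finset.sum_congr rfl fun a _ => ?_
    rw [Matrix.smul_apply, ← Pool.Agent.Y119.HY.cm_pow, Pool.Agent.Y119.HY.cm_apply, Pool.Agent.Y119.HY.Am_pow, smul_eq_mul]
    split_ifs
    · push_cast
      ring
    · simp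
  simp only [hE, Finset.mul_sum]
  rw [Finset.sum_comm]
  have hsub : Finset.range ((j : ℕ) + 1) ⊆ Finset.range e.n := by
    intro a ha
    rw [Finset.mem_range] at ha ⊢
    have := j.2
    omega
  refine Finset.sum_subset_zero_on_sdiff hsub (fun a ha => ?_) fun a ha => ?_
  · rw [Finset.mem_sdiff, Finset.mem_range, Finset.mem_range] at ha
    refine Finset.sum_eq_zero fun c _ => ?_
    rw [if_neg (by omega), mul_zero]
  · rw [Finset.mem_range] at ha
    have hj := j.2
    rw [Finset.sum_eq_single (⟨(j : ℕ) - a, by omega⟩ : Fin e.n)]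
    · rw [if_pos (by simp only; omega), mul_comm]
      congr 1
    · intro c _ hc
      rw [if_neg, mul_zero]
      intro h
      apply hc
      apply Fin.ext
      simp only
      omega
    · intro h
      exact absurd (Finset.mem_univ _) h

theorem quad {e : Eqn} (he : e.Admissible) : Run7.h893.HO.QG e.n e.poly := QG_QA he.1 (nonint he.2.1)

theorem dat {r : ℕ} {e : Fin r → Eqn} {a b : Fin r → ℚ} {τ : ℤ} (he : Good e a b τ) {L : ℝ} (hL : 0 < L)
    (h : ∀ j, |((1 / a j : ℚ) : ℝ)| + |((-b j / a j - τ : ℚ) : ℝ)| ≤ L) :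
    DatL (fun j => (e j).n) (fun j => (e j).poly) (fun j => ((-b j / a j - τ : ℚ) : ℝ)) (fun j => ((1 / a j : ℚ) : ℝ)) L where
  q := fun j => quad (he.1 j).1
  q' := fun j => by
    show Run7.h893.HO.QG _ (dq _ (QA (e j).α))
    rw [dq_QA]
    exact QG_QA (he.1 j).1.1 (nonint' (he.1 j).1.2.1)
  tr := fun j => (QA_coeff (by have := (he.1 j).1.1; omega) (e j).α).trans (he.1 j).1.2.2.1
  ty := fun j => by
    rcases (he.1 j).1.2.2.2 with h | h
    · refine Or.inr fun h2 => h ?_
      have h3 : RatEq (QA (e j).α) (dq (e j).n (QA (e j).α)) := h2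
      rw [dq_QA] at h3
      exact RatEq_QA h3
    · exact Or.inl (QDeven (quad (he.1 j).1) h)
  c0 := fun j => by
    have h2 : (1 / a j : ℚ) ≠ 0 := one_div_ne_zero (he.1 j).2.1
    exact_mod_cast h2
  gc := fun j => by
    have h1 := par_gc (he.1 j).2.2
    exact_mod_cast h1
  L0 := hL
  cL := h
  sep := fun i j hij hc _ => by
    have h1 : (1 / a i + (-b i / a i - τ) : ℚ) = 1 / a j + (-b j / a j - τ) := by exact_mod_cast hc
    rw [par_s, par_s] at h1
    have h2 : (1 - b i) / a i = (1 - b j) / a j := by linarith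
    obtain ⟨h3, h4⟩ := he.2 i j hij h2
    refine ⟨fun h => h3 (RatEq_QA h), fun h => h4 ?_⟩
    have h5 : RatEq (QA (e i).α) (dq (e j).n (QA (e j).α)) := h
    rw [dq_QA] at h5
    exact RatEq_QA h5

theorem G_eq {e : Eqn} (he : e.Admissible) : e.G = Gp e.n e.poly := by
  ext X
  unfold Eqn.G Gp
  rw [J_eq]
  refine and_congr_right fun _ => ⟨fun h h2 => h ?_, fun h h2 => h ?_⟩
  · exact evenQD h2
  · exact QDeven (quad he) h2

theorem mem_G {e : Eqn} (he : e.Admissible) {z : ℂ} (hz : ‖z‖ < 1) (l : ℂ) : e.Y z l ∈ e.G := by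
  rw [G_eq he, Y_eq]
  exact Gp_mul (Hf_mem (quad he) ((QA_coeff (by have := he.1; omega) e.α).trans he.2.2.1) hz) (Gp_E (quad he) _)

theorem form_eq {e : Eqn} (he : e.Admissible) : e.form = SUB.fm e.n e.poly := by
  unfold Eqn.form
  by_cases h : e.Symplectic
  · rw [if_pos h, SUB.fm_D (QDeven (quad he) h), J_eq]
  · rw [if_neg h]
    unfold SUB.fm
    rw [if_neg fun h1 => h (evenQD h1)]

theorem subtorsor_iff {K : Subfield ℂ} {B : Type} [Fintype B] [DecidableEq B] {T : Set (Matrix B B ℂ)} :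
    IsSubtorsor K T ↔ Pool.Agent.TH127.PT.IsSubtorsor K T := Pool.Agent.Y123.ST.subT_iff

/-- the elements of the group are related by special matrices -/
theorem rel {e : Eqn} {X Y Ω : Matrix (Fin e.n) (Fin e.n) ℂ} (hX : X ∈ e.G) (hY : Y ∈ e.G) (hΩ : IsUnit Ω) :
    ∃ g : Matrix (Fin e.n) (Fin e.n) ℂ, Special (Ω.transpose * e.form * Ω) g ∧
      g * (Y * Ω).transpose = (X * Ω).transpose := by
  have hΩd : IsUnit Ω.det := (Matrix.isUnit_iff_isUnit_det _).1 hΩ
  have hYd : IsUnit Y.det := by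
    rw [hY.1]
    exact isUnit_one
  have h1 : Ω * Ω⁻¹ = 1 := Matrix.mul_nonsing_inv _ hΩd
  have h1' : Ω⁻¹ * Ω = 1 := Matrix.nonsing_inv_mul _ hΩd
  have h2 : Y⁻¹ * Y = 1 := Matrix.nonsing_inv_mul _ hYd
  have h2' : Y * Y⁻¹ = 1 := Matrix.mul_nonsing_inv _ hYd
  have hYF : Y.transpose * e.form * Y = e.form := by
    unfold Eqn.form
    split_ifs with h
    · exact hY.2 h
    · rw [Matrix.mul_zero, Matrix.zero_mul]
  have hXF : X.transpose * e.form * X = e.form := by
    unfold Eqn.form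
    split_ifs with h
    · exact hX.2 h
    · rw [Matrix.mul_zero, Matrix.zero_mul]
  -- the transpose of `g`
  set h : Matrix (Fin e.n) (Fin e.n) ℂ := Ω⁻¹ * (Y⁻¹ * X) * Ω with hh
  have hdetY : (Y⁻¹).det = 1 := by
    have h3 := congrArg Matrix.det h2
    rwa [Matrix.det_mul, hY.1, mul_one, Matrix.det_one] at h3
  have hYi : (Y⁻¹).transpose * e.form * Y⁻¹ = e.form := by
    have h4 : (Y⁻¹).transpose * Y.transpose = 1 := by rw [← Matrix.transpose_mul, h2', Matrix.transpose_one]
    calc (Y⁻¹).transpose * e.form * Y⁻¹ = (Y⁻¹).transpose * (Y.transpose * e.form * Y) * Y⁻¹ := by rw [hYF]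
      _ = ((Y⁻¹).transpose * Y.transpose) * e.form * (Y * Y⁻¹) := by simp only [Matrix.mul_assoc]
      _ = e.form := by rw [h4, h2', Matrix.one_mul, Matrix.mul_one]
  refine ⟨h.transpose, ⟨?_, ?_⟩, ?_⟩
  · have h3 := congrArg Matrix.det h1'
    rw [Matrix.det_mul, Matrix.det_one] at h3
    rw [Matrix.det_transpose, hh, Matrix.det_mul, Matrix.det_mul, Matrix.det_mul, hdetY, hX.1, one_mul, mul_one, h3]
  · have h4 : (Ω⁻¹).transpose * Ω.transpose = 1 := by rw [← Matrix.transpose_mul, h1, Matrix.transpose_one]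
    rw [Matrix.transpose_transpose, hh]
    calc (Ω⁻¹ * (Y⁻¹ * X) * Ω).transpose * (Ω.transpose * e.form * Ω) * (Ω⁻¹ * (Y⁻¹ * X) * Ω) =
        Ω.transpose * (X.transpose * ((Y⁻¹).transpose * (((Ω⁻¹).transpose * Ω.transpose) * e.form * (Ω * Ω⁻¹)) * Y⁻¹) * X) * Ω := by
          simp only [Matrix.transpose_mul, Matrix.mul_assoc]
      _ = Ω.transpose * e.form * Ω := by
          rw [h4, h1, Matrix.one_mul, Matrix.mul_one, hYi, hXF]
  · rw [← Matrix.transpose_mul, hh]
    congr 1
    calc Y * Ω * (Ω⁻¹ * (Y⁻¹ * X) * Ω) = Y * (Ω * Ω⁻¹) * (Y⁻¹ * X) * Ω := by simp only [Matrix.mul_assoc]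
      _ = (Y * Y⁻¹) * X * Ω := by
          rw [h1, Matrix.mul_one]
          simp only [Matrix.mul_assoc]
      _ = X * Ω := by rw [h2', Matrix.one_mul]

theorem full_of {r k r₀ D : ℕ} {C₀ : Matrix (Fin r₀) (Fin r₀) ℂ} {e : Fin r → Eqn} {a b : Fin r → ℚ} {τ : ℤ}
    (he : ∀ j, (e j).Admissible) {Ω : Fin k → ∀ j, Matrix (Fin (e j).n) (Fin (e j).n) ℂ} {ξ : Fin k → ℂ}
    (hξ : ∀ i j, 1 < ‖(a j : ℂ) * ξ i + b j‖)
    (h : SUB.GoodS (n := fun j => (e j).n) D C₀ (fun j => (e j).poly) a b τ Ω ξ) : Full D C₀ e a b τ Ω ξ := by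
  intro l hl K hKf hKD
  have hper : periods e a b τ Ω ξ l = SUB.Pm (n := fun j => (e j).n) (fun j => (e j).poly) a b τ Ω ξ l := by
    funext q
    unfold periods SUB.Pm
    rw [Y_eq]
    rfl
  have hbet : ∀ q : Fin (k * r), betti e Ω q = SUB.bf (n := fun j => (e j).n) (fun j => (e j).poly) Ω q := by
    intro q
    unfold betti SUB.bf
    rw [form_eq (he _)]
  have main : ∀ T : Set (Matrix (Index r₀ e k) (Index r₀ e k) ℂ), IsSubtorsor K T →
      total C₀ (periods e a b τ Ω ξ l) ∈ T → (∀ q : Fin (k * r), IsUnit (Ω q.divNat q.modNat)) ∧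
      ∀ g : Blocks e k, (∀ q, Special (betti e Ω q) (g q)) → ∀ x ∈ T, total 1 g * x ∈ T := by
    intro T hT hcT
    have hT' := subtorsor_iff.1 hT
    have hcT' := hcT
    rw [hper] at hcT'
    obtain ⟨hu, h1⟩ := h l hl K hKf hKD T hT' hcT'
    refine ⟨hu, fun g hg x hx => ?_⟩
    have hgu : ∀ q, IsUnit (g q) := fun q => by
      rw [Matrix.isUnit_iff_isUnit_det, (hg q).1]
      exact isUnit_one
    refine h1 (fun q => (hgu q).unit) (fun q => ⟨(hg q).1, ?_⟩) x hx
    rw [← hbet q]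
    exact (hg q).2
  have hY : ∀ q : Fin (k * r), (e q.modNat).Y (1 / ((a q.modNat : ℂ) * ξ q.divNat + b q.modNat))
      (-branch (a q.modNat) (b q.modNat) τ (ξ q.divNat) (l q.divNat)) ∈ (e q.modNat).G := by
    intro q
    refine mem_G (he _) ?_ _
    have h3 := hξ q.divNat q.modNat
    rw [norm_div, norm_one, div_lt_one (by linarith)]
    exact h3
  refine ⟨fun T hT hcT => ?_, fun hC hΩ p q u v huv g hg => ?_⟩
  · obtain ⟨hu, h1⟩ := main T hT hcT
    refine ⟨h1, fun X hX => ?_⟩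
    choose g hg hg2 using fun q : Fin (k * r) => rel (hX q) (hY q) (hu q)
    have h2 := h1 g hg _ hcT
    have h3 : total (e := e) (1 : Matrix (Fin r₀) (Fin r₀) ℂ) g * total C₀ (periods e a b τ Ω ξ l) =
        total C₀ (fun q => (X q * Ω q.divNat q.modNat).transpose : Blocks e k) := by
      refine (Pool.Agent.Y123.GN.EG_mul _ _ _ _).trans ?_
      rw [Matrix.one_mul]
      unfold total Pool.Agent.Y123.GN.EG
      congr 2
      funext q
      exact hg2 q
    rwa [h3] at h2
  · have hcu : IsUnit (total C₀ (periods e a b τ Ω ξ l)) := by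
      refine Pool.Agent.Y123.GN.EG_isUnit hC fun q => ?_
      have h3 : IsUnit (Ω q.divNat q.modNat).det := (Matrix.isUnit_iff_isUnit_det _).1 (hΩ _ _)
      unfold periods
      rw [Matrix.isUnit_iff_isUnit_det, Matrix.det_transpose, Matrix.det_mul, (hY q).1, one_mul]
      exact h3
    have hT := subtorsor_iff.2 (Pool.Agent.Y123.GN.class_sub (K := K) (M := Index r₀ e k) (p := p) (q := q)
      (fun J => (u J : ℂ)) (fun I => (v I : ℂ)) (fun J => (u J).2) (fun I => SubfieldClass.ratCast_mem K _))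
    have h2 := (main _ hT ⟨hcu, huv⟩).2 g hg _ ⟨hcu, huv⟩
    have h3 := h2.2
    rw [Pool.Agent.Y123.GN.tn_mul, ← Matrix.mulVec_mulVec] at h3
    have h4 : Matrix.mulVec (Pool.Agent.Y123.GN.tn p q (total C₀ (periods e a b τ Ω ξ l))) (fun J => (u J : ℂ)) =
      fun I => (v I : ℂ) := huv
    rw [h4] at h3
    exact h3

theorem fixed {r : ℕ} (e : Fin r → Eqn) (a b : Fin r → ℚ) (τ : ℤ) (he : Good e a b τ) (k g D r₀ : ℕ) (hg : 1 ≤ g) :
    ∃ c C : ℝ, 0 < c ∧ ∀ T : ℕ, 1 ≤ T → Bound k g D r₀ e a b τ T (C * (T : ℝ) ^ (-c)) := by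
  classical
  set L : ℕ := 1 + ∑ j, ⌈|(1 / a j : ℚ)| + |(-b j / a j - τ : ℚ)|⌉₊ with hLd
  have hLle : ∀ j, |(1 / a j : ℚ)| + |(-b j / a j - τ : ℚ)| ≤ (L : ℚ) := by
    intro j
    have h1 : ⌈|(1 / a j : ℚ)| + |(-b j / a j - τ : ℚ)|⌉₊ ≤ ∑ j, ⌈|(1 / a j : ℚ)| + |(-b j / a j - τ : ℚ)|⌉₊ :=
      Finset.single_le_sum (f := fun j => ⌈|(1 / a j : ℚ)| + |(-b j / a j - τ : ℚ)|⌉₊)
        (fun _ _ => Nat.zero_le _) (Finset.mem_univ j)
    exact (Nat.le_ceil _).trans (by exact_mod_cast (by omega : _ ≤ L))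
  have hL1 : 1 ≤ L := by omega
  have hLR : (0 : ℝ) < L := by exact_mod_cast hL1
  have hLle' : ∀ j, |((1 / a j : ℚ) : ℝ)| + |((-b j / a j - τ : ℚ) : ℝ)| ≤ (L : ℝ) := fun j => by
    exact_mod_cast hLle j
  have hD := dat he hLR hLle'
  have hWW := fun j => wex_QA (α := (e j).α) (he.1 j).1.1 (he.1 j).1.2.1
  choose W' hW1 hW2 using hWW
  have hS : ∀ j, Sys (e j).n (Pool.Agent.Y119.HY.Am (e j).n) (Pool.Agent.Y119.HY.Bm (e j).n (e j).poly)
      (Hp (e j).n (e j).poly) (W' j) := by
    intro j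
    refine Fm.sys (hD.q j) (fun a b => ?_) (hW1 j) (hW2 j)
    unfold Hp
    rw [Matrix.of_apply]
    exact sdc_hps_g (Fintype.card_fin _) (nonint (he.1 j).1.2.1) (hD.q j) a b
  obtain ⟨c, hc, C, hC, h1⟩ := SUB.sub_ca (n := fun j => (e j).n) (Q := fun j => (e j).poly) hL1 hS hD
    (fun j => (he.1 j).2.1) r₀ k g D hg
  refine ⟨c, C, hc, fun T hT C₀ Ω => ?_⟩
  obtain ⟨h2, h3⟩ := h1 C₀ Ω T hT
  have hsub : {ξ : Fin k → ℂ | (∀ i, House g T (ξ i)) ∧ (Small a b τ ξ ∨ ¬ Full D C₀ e a b τ Ω ξ)} ⊆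
      {ξ : Fin k → ℂ | (∀ i, Pool.Agent.Y916.Sl.SInt g T (ξ i)) ∧
        ((∃ i, ‖ξ i - τ‖ ≤ L) ∨ ¬ SUB.GoodS (n := fun j => (e j).n) D C₀ (fun j => (e j).poly) a b τ Ω ξ)} := by
    rintro ξ ⟨hξ, hE⟩
    refine ⟨fun i => hξ i, ?_⟩
    by_cases hs : ∃ i, ‖ξ i - τ‖ ≤ L
    · exact Or.inl hs
    right
    push Not at hs
    have hbig : ∀ i j, 1 < ‖(a j : ℂ) * ξ i + b j‖ := fun i j => (ne_of_big (he.1 j).2.1 (hLle' j) (hs i)).2.2
    have hns : ¬ Small a b τ ξ := by
      rintro ⟨i, h4 | ⟨j, h4⟩⟩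
      · have h5 := hs i
        rw [h4, sub_self, norm_zero] at h5
        linarith
      · exact absurd h4 (not_le.2 (hbig i j))
    exact fun hgood => hE.resolve_left hns (full_of (fun j => (he.1 j).1) hbig hgood)
  refine ⟨h2.subset hsub, le_trans ?_ h3⟩
  exact_mod_cast Set.ncard_le_ncard hsub h2

theorem diag {F : ℕ → ℕ → Prop} (h0 : ∀ T, F 0 T) (h : ∀ w, ∀ᶠ T in Filter.atTop, F w T) :
    ∃ w : ℕ → ℕ, Filter.Tendsto w Filter.atTop Filter.atTop ∧ ∀ T, F (w T) T := by
  classical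
  have h1 : ∀ w, ∃ T₀, ∀ T, T₀ ≤ T → F w T := fun w => Filter.eventually_atTop.1 (h w)
  choose T₀ hT₀ using h1
  refine ⟨fun T => Nat.findGreatest (fun w => T₀ w ≤ T) T, ?_, fun T => ?_⟩
  · rw [Filter.tendsto_atTop]
    intro b
    filter_upwards [Filter.eventually_ge_atTop (max b (T₀ b))] with T hT
    exact Nat.le_findGreatest ((le_max_left _ _).trans hT) ((le_max_right _ _).trans hT)
  · show F (Nat.findGreatest (fun w => T₀ w ≤ T) T) T
    by_cases h2 : Nat.findGreatest (fun w => T₀ w ≤ T) T = 0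
    · rw [h2]
      exact h0 T
    · have h3 := Nat.findGreatest_of_ne_zero (P := fun w => T₀ w ≤ T) rfl h2
      exact hT₀ _ T h3

theorem rat_finite (B : ℕ) : {q : ℚ | RatSize q B}.Finite := by
  refine (((Set.finite_Icc (-(B : ℤ)) B).prod (Set.finite_Iic B)).image fun p : ℤ × ℕ => (p.1 : ℚ) / p.2).subset ?_
  rintro q ⟨hq1, hq2⟩
  exact ⟨(q.num, q.den), ⟨abs_le.1 hq1, hq2⟩, Rat.num_div_den q⟩

theorem eqn_finite (r B : ℕ) : {e : Fin r → Eqn | ∀ j, (e j).n ≤ B ∧ ∀ i, RatSize ((e j).α i) B}.Finite := by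
  have h2 : {e : Eqn | e.n ≤ B ∧ ∀ i, RatSize (e.α i) B}.Finite := by
    refine ((Set.finite_Iic B).biUnion (t := fun n => (fun α : Fin n → ℚ => (⟨n, α⟩ : Eqn)) ''
      {α | ∀ j, α j ∈ {q : ℚ | RatSize q B}}) fun n _ => (Set.Finite.pi' fun _ => rat_finite B).image _).subset ?_
    rintro ⟨n, α⟩ ⟨hn, hα⟩
    exact Set.mem_biUnion (show n ∈ Set.Iic B from hn) ⟨α, hα, rfl⟩
  exact Set.Finite.pi' fun _ => h2

theorem pol_finite (r B : ℕ) : {a : Fin r → ℚ | ∀ j, RatSize (a j) B}.Finite :=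
  Set.Finite.pi' fun _ => rat_finite B

theorem int_finite (B : ℕ) : {τ : ℤ | |τ| ≤ B}.Finite :=
  (Set.finite_Icc (-(B : ℤ)) B).subset fun _ h => abs_le.1 h

theorem bound_ev {r : ℕ} (e : Fin r → Eqn) (a b : Fin r → ℚ) (τ : ℤ) (he : Good e a b τ) (k g r₀ w : ℕ) (hg : 1 ≤ g)
    (hw : 1 ≤ w) : ∀ᶠ T : ℕ in Filter.atTop, Bound k g w r₀ e a b τ T (1 / (w : ℝ)) := by
  obtain ⟨c, C, hc, h⟩ := fixed e a b τ he k g w r₀ hg
  have hw' : (0 : ℝ) < 1 / w := by positivity
  have h1 : Filter.Tendsto (fun T : ℕ => C * (T : ℝ) ^ (-c)) Filter.atTop (nhds 0) := by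
    have h2 := ((tendsto_rpow_neg_atTop hc).comp tendsto_natCast_atTop_atTop).const_mul C
    rwa [mul_zero] at h2
  filter_upwards [h1.eventually_lt_const hw', Filter.eventually_ge_atTop 1] with T hT hT1 C₀ Ω
  obtain ⟨h3, h4⟩ := h T hT1 C₀ Ω
  exact ⟨h3, h4.trans (mul_le_mul_of_nonneg_right hT.le (by positivity))⟩

/-- For `|z| < 1` the matrices `Y(z)` lie in the groups `G`, for all branches and all admissible equations. For every good
list `e_1, …, e_r` of hypergeometric equations with linear polynomials `ℓ_1, …, ℓ_r` and an integer `τ`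
and all `k`, `g`, `D` and `r₀` there are `c > 0` and `C` such that for all complex matrices `C₀` of order `r₀` and `Ω_ij` at
most `C T^(-c) N^k` of the `N^k` `k`-tuples of algebraic integers of degree `≤ g` with conjugates of size `≤ T` are small or do
not satisfy `Full D`: outside of this set all subtorsors over number fields of degree `≤ D` which contain the period matrix
`C₀ ⊕ ⨁_ij (Y_j(1 / ℓ_j(ξ_i)) Ω_ij)ᵗ` are stable under the products of the symplectic and special linear groups, and the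
de Rham-Betti classes over these fields in all tensor spaces are invariant under them. In particular there is a function `w(T)`
which tends to infinity such that this number is at most `N^k / w(T)` for all `T`, all good lists of at most `w(T)` equations
and polynomials with data of size at most `w(T)` and all parameters `k`, `g`, `D` and `r₀` of size at most `w(T)`. -/
theorem result :
    (∀ e : Eqn, e.Admissible → ∀ z l : ℂ, ‖z‖ < 1 → e.Y z l ∈ e.G) ∧
    (∀ (r : ℕ) (e : Fin r → Eqn) (a b : Fin r → ℚ) (τ : ℤ), Good e a b τ → ∀ k g D r₀ : ℕ, 1 ≤ g →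
      ∃ c C : ℝ, 0 < c ∧ ∀ T : ℕ, 1 ≤ T → Bound k g D r₀ e a b τ T (C * (T : ℝ) ^ (-c))) ∧
    ∃ w : ℕ → ℕ, Filter.Tendsto w Filter.atTop Filter.atTop ∧ ∀ T : ℕ, ∀ r ≤ w T, ∀ (e : Fin r → Eqn) (a b : Fin r → ℚ)
      (τ : ℤ), Good e a b τ → Size e a b τ (w T) → ∀ k ≤ w T, ∀ r₀ ≤ w T, ∀ g ≤ w T, 1 ≤ g →
      Bound k g (w T) r₀ e a b τ T (1 / (w T : ℝ)) := by
  refine ⟨fun e he z l hz => mem_G he hz l, fun r e a b τ he k g D r₀ hg => fixed e a b τ he k g D r₀ hg, ?_⟩
  refine diag (F := fun w T => ∀ r ≤ w, ∀ (e : Fin r → Eqn) (a b : Fin r → ℚ) (τ : ℤ), Good e a b τ → Size e a b τ w →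
    ∀ k ≤ w, ∀ r₀ ≤ w, ∀ g ≤ w, 1 ≤ g → Bound k g w r₀ e a b τ T (1 / (w : ℝ)))
    (fun T r _ e a b τ _ _ k _ r₀ _ g hg hg1 => by omega) fun w => ?_
  rcases Nat.eq_zero_or_pos w with rfl | hw
  · exact Filter.Eventually.of_forall fun T r _ e a b τ _ _ k _ r₀ _ g hg hg1 => by omega
  have h1 : ∀ᶠ T : ℕ in Filter.atTop, ∀ r ∈ Set.Iic w,
      ∀ e ∈ {e : Fin r → Eqn | ∀ j, (e j).n ≤ w ∧ ∀ i, RatSize ((e j).α i) w},
      ∀ a ∈ {a : Fin r → ℚ | ∀ j, RatSize (a j) w}, ∀ b ∈ {a : Fin r → ℚ | ∀ j, RatSize (a j) w},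
      ∀ τ ∈ {τ : ℤ | |τ| ≤ w}, ∀ k ∈ Set.Iic w, ∀ r₀ ∈ Set.Iic w, ∀ g ∈ Set.Iic w, Good e a b τ → 1 ≤ g →
        Bound k g w r₀ e a b τ T (1 / (w : ℝ)) := by
    rw [Filter.eventually_all_finite (Set.finite_Iic w)]
    intro r _
    rw [Filter.eventually_all_finite (eqn_finite r w)]
    intro e _
    rw [Filter.eventually_all_finite (pol_finite r w)]
    intro a _
    rw [Filter.eventually_all_finite (pol_finite r w)]
    intro b _
    rw [Filter.eventually_all_finite (int_finite w)]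
    intro τ _
    rw [Filter.eventually_all_finite (Set.finite_Iic w)]
    intro k _
    rw [Filter.eventually_all_finite (Set.finite_Iic w)]
    intro r₀ _
    rw [Filter.eventually_all_finite (Set.finite_Iic w)]
    intro g _
    by_cases hg : Good e a b τ
    · by_cases hg1 : 1 ≤ g
      · filter_upwards [bound_ev e a b τ hg k g r₀ w hg1 hw] with T hT _ _ using hT
      · exact Filter.Eventually.of_forall fun T _ h => absurd h hg1
    · exact Filter.Eventually.of_forall fun T h => absurd h hg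
  filter_upwards [h1] with T hT r hr e a b τ hg hs k hk r₀ hr₀ g hgw hg1
  exact hT r hr e hs.1 a hs.2.1 b hs.2.2.1 τ hs.2.2.2 k hk r₀ hr₀ g hgw hg hg1

end Pool.Agent.Results.MP_bf54cf_ag.CorrelatedFibresAllTensors
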