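import Pool.Agent.Run7.h893.Kept.HypergeometricOrthogonal
import Pool.Agent.Run7.h893.NM.Pure
import Pool.Agent.Run7.h893.NM.Bas
import Pool.Agent.Y123.GN.B4

/-!
# De Rham-Betti classes in all tensor spaces of almost all members of self-dual hypergeometric families, over all number fields of bounded degree

Let `M_i(z)`, `1 ≤ i ≤ k`, be the families of motives of the self-dual hypergeometric equations with maximally unipotent
monodromy at `z = 0`, of any order `n_i ≥ 2` (`Eqn`, see `HypergeometricOrthogonal`; for example the transcendental parts of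
the middle cohomology of the mirror families of elliptic curves, K3 surfaces, Calabi-Yau threefolds and fourfolds with one
parameter). The period matrix of `M_i(1/t)` is `Y_i(1/t) Ω_i`, with the matrix `Y_i = (θ^a f_b)` of the Frobenius basis and a
matrix `Ω_i` of constants (the periods of the limit motive). The polarisation of `M_i(1/t)` is given by the matrix
`S_i = Ω_iᵀ J_i Ω_i` with respect to the basis of the homology, and by the matrix `B_i(1/t)` with respect to the basis of
the de Rham cohomology. It is given by an algebraic cycle.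

Let `M_0` be any de Rham-Betti object, for example the cohomology of any variety `Z`, with the period matrix `C₀` (any invertible
complex matrix), `K(t)` the Kummer motive of `t`, and

`M(t) = M_0 ⊕ ℚ(-1) ⊕ ⨁_i (K(t_i) ⊕ M_i(1/t_i))`.

We prove: for almost all `t` the following holds for ALL number fields `K` of degree `≤ d` at once (they may depend on `t` and
on the class) and all bases of the de Rham side over `K`: every de Rham-Betti class over `K` in every tensor space
`M(t)^{⊗ p} ⊗ (M(t)^∨)^{⊗ q}`, with no bound for `p` and `q`, is invariant under the product of the groups `G_a` and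
`{g_i : det g_i = 1, g_i preserves the polarisation}`. The classes in the twists `(w)` are included (`ℚ(-1)` is a
summand). So the classes of the tensor space of `M_0` and of the `M_i(1/t_i)` are, by the first fundamental theorem of
invariant theory, combinations of products of classes of `M_0(w)` and of the polarisations and determinants of the `M_i`, which
are classes of algebraic cycles (the determinant of `M_i(1/t)` is a twist of the motive of the field `ℚ(√(1 - 1/t))` or of
`ℚ`): on the products of a variety `Z` with any powers of these fibres the conjecture for the classes coming from `Z` and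
the `M_i` (with coefficients of degree `≤ d`) follows from the conjecture for `Z`.

In an earlier version (`HypergeometricAllTensors`, kept in `Run7/h893/Kept`) all tensor spaces were treated over one fixed
number field, and number fields depending on the fibre only for tensor spaces of bounded degree, without `M_0`. The proof
uses the theorem on relations of bounded degree (over `ℚ`), the criterion `abs_main` of `Pool/Agent/Y123/GN` (Lie algebras
of subtorsors, Jordan's theorem), the generation of special orthogonal groups by unipotent elements (`Run7/h893/TO`) and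
the fact that the conjugates of a relation over `K` give a relation over `ℚ` on a group generated by one-parameter
subgroups (`Run7/h893/NT/Unif`).
-/

set_option autoImplicit false

open Matrix

namespace Pool.Agent.Results.MP_bf54cf_ag.HypergeometricTensorClasses

open Pool.Agent.Results.MP_57341d_ag.HypergeometricOrthogonal (Eqn)

variable {k : ℕ}

/-- the polarisation on the homology of `M_i` -/
noncomputable def pol (e : Fin k → Eqn) (Ω : ∀ i, Matrix (Fin (e i).order) (Fin (e i).order) ℂ) (i : Fin k) :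
    Matrix (Fin (e i).order) (Fin (e i).order) ℂ := (Ω i).transpose * (e i).J * Ω i

/-- the number `2πi` -/
noncomputable def twoPiI : ℂ := 2 * Real.pi * Complex.I

/-- the block matrix `x ⊕ μ`; for a period matrix `x` of `M_0` and `μ = 2πi` the period matrix of `M_0 ⊕ ℚ(-1)` -/
def withTate {r : ℕ} (x : Matrix (Fin r) (Fin r) ℂ) (μ : ℂ) : Matrix (Fin r ⊕ Unit) (Fin r ⊕ Unit) ℂ :=
  Matrix.fromBlocks x 0 0 (Matrix.of fun _ _ => μ)

/-- the index set of the bases of `M_0 ⊕ ℚ(-1) ⊕ ⨁_i (K(t_i) ⊕ M_i(1/t_i))` -/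
abbrev Index (r : ℕ) (e : Fin k → Eqn) : Type := (Fin r ⊕ Unit) ⊕ (Σ i : Fin k, Fin 2 ⊕ Fin (e i).order)

/-- the block matrix `x ⊕ μ ⊕ ⨁_i ((1, u_i; 0, μ) ⊕ X_i)` -/
noncomputable def total {r : ℕ} {e : Fin k → Eqn} (x : Matrix (Fin r) (Fin r) ℂ) (μ : ℂ) (u : Fin k → ℂ)
    (X : ∀ i, Matrix (Fin (e i).order) (Fin (e i).order) ℂ) : Matrix (Index r e) (Index r e) ℂ :=
  Matrix.fromBlocks (withTate x μ) 0 0 (Matrix.blockDiagonal' fun i => Matrix.fromBlocks !![1, u i; 0, μ] 0 0 (X i))

/-- the period matrix of `M_0 ⊕ ℚ(-1) ⊕ ⨁_i (K(t_i) ⊕ M_i(1/t_i))`, rows: Betti side, columns: de Rham side -/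
noncomputable def periodMatrix {r : ℕ} (C₀ : Matrix (Fin r) (Fin r) ℂ) (e : Fin k → Eqn)
    (Ω : ∀ i, Matrix (Fin (e i).order) (Fin (e i).order) ℂ) (t : Fin k → ℕ) : Matrix (Index r e) (Index r e) ℂ :=
  total C₀ twoPiI (fun i => ((Real.log (t i) : ℝ) : ℂ)) fun i => ((e i).Y (t i) * Ω i)ᵀ

/-- The action of an invertible matrix on the mixed tensors of type `(p, q)`: it acts by `x` on the first `p` indices and
by the contragredient on the others. -/
noncomputable def tens {B : Type} [Fintype B] [DecidableEq B] (p q : ℕ) (x : Matrix B B ℂ) :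
    Matrix ((Fin p → B) × (Fin q → B)) ((Fin p → B) × (Fin q → B)) ℂ :=
  Matrix.of fun I J => (∏ s, x (I.1 s) (J.1 s)) * ∏ t, x⁻¹ (J.2 t) (I.2 t)

/-- For all number fields `K` of degree `≤ d`, all invertible matrices `E` over `K` (changes of the basis of the de Rham side) and
all `p` and `q`: every de Rham-Betti class over `K` in the tensor space `M^{⊗ p} ⊗ (M^∨)^{⊗ q}`, that is, every rational vector
`b` on the Betti side which is the image of a vector `a` with coordinates in `K` on the de Rham side, is invariant under all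
`(u_i)` and all `(g_i)` of determinant one which preserve the forms `S_i`. -/
def AllInvariant (d : ℕ) {r : ℕ} (C₀ : Matrix (Fin r) (Fin r) ℂ) (e : Fin k → Eqn)
    (Ω : ∀ i, Matrix (Fin (e i).order) (Fin (e i).order) ℂ) (t : Fin k → ℕ) : Prop :=
  ∀ K : Subfield ℂ, FiniteDimensional ℚ K → Module.finrank ℚ K ≤ d →
  ∀ E : Matrix (Index r e) (Index r e) ℂ, (∀ i j, E i j ∈ K) → IsUnit E →
  ∀ (p q : ℕ) (a : (Fin p → Index r e) × (Fin q → Index r e) → K) (b : (Fin p → Index r e) × (Fin q → Index r e) → ℚ),
    Matrix.mulVec (tens p q (periodMatrix C₀ e Ω t * E)) (fun J => (a J : ℂ)) = (fun I => (b I : ℂ)) →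
    ∀ (u : Fin k → ℂ) (g : ∀ i, Matrix (Fin (e i).order) (Fin (e i).order) ℂ),
      (∀ i, g i * pol e Ω i * (g i)ᵀ = pol e Ω i ∧ (g i).det = 1) →
      Matrix.mulVec (tens p q (total 1 1 u g)) (fun I => (b I : ℂ)) = fun I => (b I : ℂ)

theorem J_odd {e : Eqn} (he : e.Admissible) (h : e.odd = true) : e.J.transpose = e.J := by
  have h1 := Pool.Agent.Results.MP_57341d_ag.HypergeometricOrthogonal.J_symm e he
  rw [h1, h]

theorem J_even {e : Eqn} (he : e.Admissible) (h : e.odd = false) : e.J.transpose = -e.J := by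
  have h1 := Pool.Agent.Results.MP_57341d_ag.HypergeometricOrthogonal.J_symm e he
  rw [h1, h]

theorem withTate_unit {r : ℕ} {x : Matrix (Fin r) (Fin r) ℂ} (hx : IsUnit x) {μ : ℂ} (hμ : μ ≠ 0) :
    IsUnit (withTate x μ) := by
  rw [Matrix.isUnit_iff_isUnit_det] at hx ⊢
  have h1 : (Matrix.of fun _ _ => μ : Matrix Unit Unit ℂ).det = μ := by
    rw [Matrix.det_unique]
    rfl
  unfold withTate
  rw [Matrix.det_fromBlocks_zero₂₁, h1]
  exact hx.mul (isUnit_iff_ne_zero.2 hμ)

theorem withTate_one {r : ℕ} : withTate (1 : Matrix (Fin r) (Fin r) ℂ) 1 = 1 := by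
  unfold withTate
  have h1 : (Matrix.of fun _ _ => (1 : ℂ) : Matrix Unit Unit ℂ) = 1 := by
    ext i j
    simp
  rw [h1, fromBlocks_one]

/-- Let `e_i`, `1 ≤ i ≤ k`, be admissible self-dual hypergeometric equations. The polarisation `S_i` corresponds to the
matrix `B_i(1/t)` on the de Rham side. For all `d` and `r` there are `c > 0` and `C` such that for every invertible `r × r`
matrix `C₀` (the period matrix of `M_0`), all invertible `Ω_i` and every box `∏_i (x_i, x_i + N]` with `x_i ≥ 1` for all but
`C N^(k-1) ∑_i (1 + N / (x_i + N)^c)` integral points `t` of the box all de Rham-Betti classes over all number fields `K` of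
degree `≤ d` in all tensor spaces of `M_0 ⊕ ℚ(-1) ⊕ ⨁_i (K(t_i) ⊕ M_i(1/t_i))` (with any basis of the de Rham side over `K`) are
invariant under the groups `G_a` and under all `(g_i)` of determinant one which preserve the polarisations. -/
theorem result (k : ℕ) (e : Fin k → Eqn) (he : ∀ i, (e i).Admissible) :
    (∀ (Ω : ∀ i, Matrix (Fin (e i).order) (Fin (e i).order) ℂ) (t : Fin k → ℕ) (i : Fin k), 2 ≤ t i →
      ((e i).Y (t i) * Ω i).transpose * (e i).B (1 / (t i : ℂ)) * ((e i).Y (t i) * Ω i) = pol e Ω i) ∧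
    ∀ d r : ℕ, ∃ c C : ℝ, 0 < c ∧ ∀ C₀ : Matrix (Fin r) (Fin r) ℂ, IsUnit C₀ →
      ∀ Ω : (∀ i, Matrix (Fin (e i).order) (Fin (e i).order) ℂ), (∀ i, IsUnit (Ω i)) →
      ∀ (x : Fin k → ℕ) (N : ℕ), (∀ i, 1 ≤ x i) → 1 ≤ N →
      (({t : Fin k → ℕ | (∀ i, x i < t i ∧ t i ≤ x i + N) ∧ ¬ AllInvariant d C₀ e Ω t}.ncard : ℕ) : ℝ) ≤
        C * (N : ℝ) ^ (k - 1) * ∑ i, (1 + N / ((x i : ℝ) + N) ^ c) := by
  classical
  have hF := fun i => Pool.Agent.Results.MP_57341d_ag.HypergeometricOrthogonal.fam (e i) (he i)
  refine ⟨fun Ω t i ht => ?_, fun d r => ?_⟩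
  · have h1 := ((Pool.Agent.Results.MP_57341d_ag.HypergeometricOrthogonal.result k e he).1 i).2.2 (t i) ht
    unfold pol
    rw [Matrix.transpose_mul]
    calc (Ω i).transpose * ((e i).Y (t i)).transpose * (e i).B (1 / (t i : ℂ)) * ((e i).Y (t i) * Ω i)
        = (Ω i).transpose * (((e i).Y (t i)).transpose * (e i).B (1 / (t i : ℂ)) * (e i).Y (t i)) * Ω i := by
          simp only [Matrix.mul_assoc]
      _ = _ := by rw [h1]
  obtain ⟨c, C, hc, -, hmain⟩ := Run7.h893.NM.hyp_stab_u k d (r + 1) (fun i => (e i).order) (fun i => (e i).poly)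
    (fun i => (e i).J) (fun i => (e i).B) hF (fun i => by
      rcases h : (e i).odd with _ | _
      · exact Or.inl (J_even (he i) h)
      · refine Or.inr ⟨J_odd (he i) h, ?_⟩
        have h1 : 1 ≤ (e i).m := (he i).1
        unfold Pool.Agent.Results.MP_57341d_ag.HypergeometricOrthogonal.Eqn.order
        rw [h]
        show 3 ≤ 2 * (e i).m + 1
        omega)
  refine ⟨c, C, hc, ?_⟩
  intro C₀ hC₀ Ω hΩ x N hx hN
  set S := {t : Fin k → ℕ | (∀ i, x i < t i ∧ t i ≤ x i + N) ∧ ¬ AllInvariant d C₀ e Ω t} with hS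
  have hfin : S.Finite := by
    refine (Set.finite_Iic (fun i : Fin k => x i + N)).subset ?_
    intro t ht i
    exact (ht.1 i).2
  rw [Set.ncard_eq_toFinset_card S hfin]
  have h2pi : twoPiI ≠ 0 := Pool.Agent.Y123.GN.tpi_ne
  have hu := withTate_unit hC₀ h2pi
  refine hmain (Fin r ⊕ Unit) (withTate C₀ twoPiI) (by simp) hu Ω hΩ x N hx hN _ fun t ht => ?_
  have ht' : t ∈ S := hfin.mem_toFinset.1 ht
  obtain ⟨hbox, hnot⟩ := ht'
  refine ⟨hbox, fun hsta => hnot ?_⟩
  have ht2 : ∀ i, 2 ≤ t i := fun i => by
    have := (hbox i).1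
    have := hx i
    omega
  have hper : periodMatrix C₀ e Ω t =
      Pool.Agent.Y123.GN.tot (n := fun i => (e i).order) (withTate C₀ twoPiI) (fun i => (e i).poly) Ω t := by
    unfold periodMatrix
    have hY : (fun i => ((e i).Y (t i) * Ω i)ᵀ) = Pool.Agent.Y123.GN.cM (n := fun i => (e i).order)
        (fun i => (e i).poly) Ω t := by
      funext i
      unfold Pool.Agent.Y123.GN.cM
      rw [Pool.Agent.Results.MP_57341d_ag.HypergeometricOrthogonal.Y_eq]
    rw [hY]
    rfl
  intro K hKf hKD E hE hEu p q a b hab u g hg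
  have hT := Run7.h893.NM.sub_mul_basis (Pool.Agent.Y123.GN.class_sub (K := K) (M := Index r e) (p := p) (q := q)
    (fun J => (a J : ℂ)) (fun I => (b I : ℂ)) (fun J => (a J).2) (fun I => SubfieldClass.ratCast_mem K _)) hE hEu
  have hPu : IsUnit (periodMatrix C₀ e Ω t) := by
    rw [hper]
    exact Pool.Agent.Y123.GN.EM_isUnit hu (fun i => Pool.Agent.Y123.GN.kum_unit h2pi)
      (fun i => Run7.h893.TO.cM_unit' (n := fun i => (e i).order) hF hΩ ht2 i)
  have hPE : IsUnit (periodMatrix C₀ e Ω t * E) := hPu.mul hEu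
  have h2 := hsta K hKf hKD _ hT (by rw [← hper]; exact ⟨hPE, hab⟩) u g (fun i => hg i) (periodMatrix C₀ e Ω t) ⟨hPE, hab⟩
  have h3 := h2.2
  have h5 : Pool.Agent.Y123.GN.EM (1 : Matrix (Fin r ⊕ Unit) (Fin r ⊕ Unit) ℂ) (fun i => Pool.Agent.Y123.GN.uu (u i)) g =
      total 1 1 u g := by
    unfold total
    rw [withTate_one]
    rfl
  rw [h5, Matrix.mul_assoc, Pool.Agent.Y123.GN.tn_mul, ← Matrix.mulVec_mulVec] at h3
  have h4 : Matrix.mulVec (Pool.Agent.Y123.GN.tn p q (periodMatrix C₀ e Ω t * E)) (fun J => (a J : ℂ)) =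
    fun I => (b I : ℂ) := hab
  rw [h4] at h3
  exact h3

end Pool.Agent.Results.MP_bf54cf_ag.HypergeometricTensorClasses
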