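import Pool.Agent.Y102.V15

set_option autoImplicit false

/-!
# The period conjecture for cycles on all powers of an abelian variety: one class of codimension two
# decides

Let `A` be an abelian variety over the field `ℚ̄` of algebraic numbers. As in `MaximalRealMult` and
`KugaSatake` the de Rham-Betti classes on the powers of `A` are considered as multilinear forms `φ` with
rational values in `2m` variables in `H_1(A, ℚ)`, that is as elements of `H^1(A) ^ {⊗ 2m} (m)` (the
space `H^{2m}(A ^ n) (m)` is a direct summand of a sum of copies of it), and nothing is assumed about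
periods: `AbVar` is the description of an abelian variety over `ℚ̄` by theta functions.

Let `𝔤` be the Lie algebra of the endomorphisms of `H_1(A, ℚ)` that annihilate all classes which are at
the same time Hodge classes and de Rham-Betti classes (`InLie`). By the theorem of Deligne all Hodge
classes are de Rham-Betti classes, so that `𝔤` is the Lie algebra of the Hodge group of `A`. Let `𝔥 ⊆ 𝔤` be
the Lie algebra of the endomorphisms that annihilate all de Rham-Betti classes (`InDRBLie`), and let `ω`
be the polarization.

**Theorem.** For every abelian variety `A` over `ℚ̄` there is an explicit de Rham-Betti class `c` in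
`H^1(A) ^ {⊗ 4} (2)`, a class of codimension two on `A ^ 4`: the Casimir form of `𝔥`,
`c (u, v, w, x) = ω (T w, x)`, where `T` is the element of `𝔥` with `tr (T Y) = ω (Y u, v)` for all
`Y ∈ 𝔥`. It is annihilated by the centre of `𝔤`, and the following are equivalent:

* `c` is a Hodge class;
* **all** de Rham-Betti classes in `H^1(A) ^ {⊗ 2m} (m)`, for all `m`, which are annihilated by the centre
  of `𝔤` are Hodge classes;
* the Lie algebra `𝔥` contains the derived algebra `[𝔤, 𝔤]`.

If the centre of `𝔤` is rigid (`RigidCentre`; see below), then they are equivalent to the statement that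
all de Rham-Betti classes in `H^1(A) ^ {⊗ 2m} (m)`, for all `m`, are Hodge classes, without a condition.

If `A` has no factors of type IV, then the centre of `𝔤` is zero. So to prove that all de Rham-Betti
classes on all powers of `A` are Hodge classes (and then motivated, by the theorems of Deligne and
André, and algebraic, if the Hodge conjecture is true for the powers of `A`) it suffices to
consider **one class of codimension two**. A priori the algebra of all de Rham-Betti classes on the
powers of `A` might need generators of arbitrary degree.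

## The centre

The centre of `𝔤` is *rigid* (`RigidCentre`) if for every element `X` of the centre which generates it
relative to the derived algebra (`Generates`), all relations `∑ x i = 0` between eigenvalues of `X`
for eigenvectors `v i` imply the relations `∑ y i = 0` for the eigenvalues of all the other elements `Y`
of the centre, for the same eigenvectors. If the centre is zero, or if it has dimension one and zero is
not a generating element, then it is rigid.

## Proof

By the theorem of Schneider and Lang the Lie algebra `𝔥` acts semisimply on `H_1(A, ℚ)`, with the same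
commutant as `𝔤`; and the trace form `tr (X Y)` is nondegenerate on `𝔥`, since an element of the
radical is central, so it is an endomorphism of `A`, which is skew-symmetric for the polarization, and
`tr (X ^ 2) < 0` for those by the positivity of the Rosati involution. The class `c` is
invariant under `𝔥`, so it is a de Rham-Betti class. If it is a Hodge class, then all `Z ∈ 𝔤` annihilate
it, and so `[Z, 𝔥] ⊆ 𝔥`; therefore `Z` is the sum of an element of `𝔥` and of an endomorphism that
commutes with `𝔥`, that is, with `𝔤`. So `𝔤` is the sum of `𝔥` and of its centre.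
-/

open Module Matrix Pool.Agent.Y102 Pool.Agent.W516.DR Pool.Agent.H204R3.GP

noncomputable section

namespace Pool.Agent.Results.MP_bf54cf_ag.OneClassDecides

variable {g : ℕ} (A : AbVar g)

/-! ### De Rham-Betti classes and Hodge classes -/

/-- The multilinear forms in `2m` variables in the rational homology. -/
abbrev Form (m : ℕ) : Type := MultilinearMap ℚ (fun _ : Fin m × Fin 2 => A.H1) ℚ

/-- `φ` is a de Rham-Betti class in `H^1(A) ^ {⊗ 2m} (m)`. -/
def IsDRB {m : ℕ} (φ : Form A m) : Prop :=
  IsDeRhamBettiForm QBar A.dR (2 * Real.pi * Complex.I) m φ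

/-- `φ` is a Hodge class in `H^1(A) ^ {⊗ 2m} (m)`. -/
def IsHodge {m : ℕ} (φ : Form A m) : Prop := IsHodgeTensor (A.per : A.H1 →+ (Fin g → ℂ)) φ

/-- The endomorphism `X` annihilates the form `φ` (as a derivation). -/
def Annihilates {m : ℕ} (X : Module.End ℚ A.H1) (φ : Form A m) : Prop :=
  ∀ v, ∑ k, φ (Function.update v k (X (v k))) = 0

/-! ### The Lie algebra of the Hodge group and its centre -/

/-- `X` is in the Lie algebra `𝔤`: it annihilates all classes that are Hodge classes and
de Rham-Betti classes. -/
def InLie (X : Module.End ℚ A.H1) : Prop :=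
  ∀ (m : ℕ) (φ : Form A m), IsHodge A φ → IsDRB A φ → Annihilates A X φ

/-- `X` is an element of the centre of `𝔤`. -/
def InCentre (X : Module.End ℚ A.H1) : Prop := InLie A X ∧ ∀ Y, InLie A Y → Y * X = X * Y

/-- The class `φ` is annihilated by the centre of `𝔤`. -/
def KilledByCentre {m : ℕ} (φ : Form A m) : Prop := ∀ X, InCentre A X → Annihilates A X φ

/-- The matrix of the extension of an endomorphism of `H_1(A, ℚ)` to `H_1(A, ℂ)`, for the basis of the
lattice. -/
def toC (X : Module.End ℚ A.H1) : Matrix (Fin (2 * g)) (Fin (2 * g)) ℂ :=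
  Matrix.of fun i j => (X (Pi.single j 1) i : ℂ)

/-- The endomorphisms which commute with `X` and with the derived algebra of `𝔤` commute with the
centre of `𝔤`. -/
def Generates (X : Module.End ℚ A.H1) : Prop :=
  ∀ T : Module.End ℚ A.H1,
    (∀ Y, InLie A Y → ∀ Z, InLie A Z → T * (Y * Z - Z * Y) = (Y * Z - Z * Y) * T) →
    T * X = X * T → ∀ Z, InCentre A Z → T * Z = Z * T

/-- All relations `∑ i, x i = 0` between eigenvalues of `X` imply the relation `∑ i, y i = 0` between
the eigenvalues of `Y` for the same eigenvectors. -/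
def RelationsOf (X Y : Module.End ℚ A.H1) : Prop :=
  ∀ (r : ℕ) (v : Fin r → Fin (2 * g) → ℂ) (x y : Fin r → ℂ),
    (∀ i, v i ≠ 0 ∧ toC A X *ᵥ v i = x i • v i ∧ toC A Y *ᵥ v i = y i • v i) →
      ∑ i, x i = 0 → ∑ i, y i = 0

/-- The centre of `𝔤` is rigid: the relations between the eigenvalues of a generating element of the
centre hold for all elements of the centre. -/
def RigidCentre : Prop :=
  ∀ X, InCentre A X → Generates A X → ∀ Y, InCentre A Y → RelationsOf A X Y

/-! ### The Casimir form -/

/-- `X` is in the Lie algebra `𝔥`: it annihilates all de Rham-Betti classes. -/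
def InDRBLie (X : Module.End ℚ A.H1) : Prop := ∀ (m : ℕ) (φ : Form A m), IsDRB A φ → Annihilates A X φ

/-- `c` is the Casimir form of `𝔥`: we have `c (u, v, w, x) = ω (T w, x)` for the element `T` of `𝔥` with
`tr (T Y) = ω (Y u, v)` for all `Y ∈ 𝔥`. -/
def IsCasimir (c : Form A 2) : Prop :=
  ∀ v, ∃ T, InDRBLie A T ∧
    (∀ Y, InDRBLie A Y → LinearMap.trace ℚ A.H1 (T * Y) = A.om (Y (v (0, 0))) (v (0, 1))) ∧
    c v = A.om (T (v (1, 0))) (v (1, 1))

/-- The Lie algebra `𝔥` contains the derived algebra of `𝔤`. -/
def ContainsDerived : Prop := ∀ X, InLie A X → ∀ Y, InLie A Y → InDRBLie A (X * Y - Y * X)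

/-! ### The proof -/

variable {A}

theorem mem_NA {X : Module.End ℚ A.H1} : X ∈ A.NA ↔ InLie A X := Iff.rfl

theorem mem_CN {X : Module.End ℚ A.H1} : X ∈ A.CN ↔ InCentre A X := Iff.rfl

theorem centre_le (h : RigidCentre A) : A.CN ≤ A.LA :=
  A.centre_le fun X hX hg Y hY => by
    refine dom_of_matrix (h X ⟨hX.1, hX.2⟩ (fun T hT hTX Z hZ => ?_) Y ⟨hY.1, hY.2⟩)
    exact hg T hT hTX Z ⟨hZ.1, hZ.2⟩

theorem hodge_of_cas (h : IsHodge A A.cas) {m : ℕ} {φ : Form A m} (hφ : IsDRB A φ)
    (hk : KilledByCentre A φ) : IsHodge A φ :=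
  A.hodge_of_le (A.NA_le_of_cas h) hφ fun _ hX => hk _ (mem_CN.1 hX)

theorem killed_of_rigid (h : RigidCentre A) {m : ℕ} {φ : Form A m} (hφ : IsDRB A φ) :
    KilledByCentre A φ := fun _ hX => centre_le h (mem_CN.2 hX) m φ hφ

theorem derived_of_cas (h : IsHodge A A.cas) : ContainsDerived A := by
  intro X hX Y hY
  obtain ⟨X', hX', Z, hZ, rfl⟩ := Submodule.mem_sup.1 (A.NA_le_of_cas h (mem_NA.2 hX))
  obtain ⟨Y', hY', Z', hZ', rfl⟩ := Submodule.mem_sup.1 (A.NA_le_of_cas h (mem_NA.2 hY))
  have e1 := hZ.2 _ (A.LA_le_NA hY')
  have e2 := hZ'.2 _ (A.LA_le_NA hX')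
  have e3 := hZ.2 _ hZ'.1
  have h1 : (X' + Z) * (Y' + Z') - (Y' + Z') * (X' + Z) = X' * Y' - Y' * X' := by
    rw [add_mul, mul_add, mul_add, add_mul, mul_add, mul_add, ← e1, ← e3, e2]
    abel
  rw [h1]
  exact A.LA_bracket hX' hY'

theorem isCasimir_cas : IsCasimir A A.cas := by
  intro v
  exact ⟨Pool.Agent.W516.KC2.EE A.LA A.trace_LA A.om (v (0, 0)) (v (0, 1)),
    Pool.Agent.W516.KC2.EE_mem A.LA A.trace_LA A.om (v (0, 0)) (v (0, 1)),
    fun Y hY => Pool.Agent.W516.KC2.EE_trace A.LA A.trace_LA A.om (v (0, 0)) (v (0, 1)) hY,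
    Pool.Agent.W516.KC2.casimir_apply A.LA A.trace_LA A.om v⟩

/-- **One de Rham-Betti class of codimension two decides.** -/
theorem result (g : ℕ) (A : AbVar g) :
    ∃ c : Form A 2, IsCasimir A c ∧ IsDRB A c ∧ KilledByCentre A c ∧
      (IsHodge A c ↔ ∀ (m : ℕ) (φ : Form A m), IsDRB A φ → KilledByCentre A φ → IsHodge A φ) ∧
      (IsHodge A c ↔ ContainsDerived A) ∧
      (RigidCentre A → (IsHodge A c ↔ ∀ (m : ℕ) (φ : Form A m), IsDRB A φ → IsHodge A φ)) :=
  ⟨A.cas, isCasimir_cas, A.cas_drb, fun _ hX => A.cas_killed (mem_CN.2 hX),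
    ⟨fun h _ _ hφ hk => hodge_of_cas h hφ hk,
      fun h => h 2 _ A.cas_drb fun _ hX => A.cas_killed (mem_CN.2 hX)⟩,
    ⟨derived_of_cas, fun h => A.cas_hodge_of_rigid fun X hX Y hY => h X hX Y hY⟩,
    fun hr => ⟨fun h _ _ hφ => hodge_of_cas h hφ (killed_of_rigid hr hφ),
      fun h => h 2 _ A.cas_drb⟩⟩

end Pool.Agent.Results.MP_bf54cf_ag.OneClassDecides
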