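import Pool.Agent.Run7.h358.PL.Fin

set_option autoImplicit false

/-!
# The Grothendieck period conjecture for algebraic cycles on powers of stably nondegenerate abelian varieties of type `A_1`

Let `A` be an abelian variety over `ℚ̄`. Let `B` be the algebra of the endomorphisms of `H_1(A, ℚ)` which
commute with `End(A)`. The skew-symmetric elements of `B` for a polarization are the Lie algebra `𝔩` of the
Lefschetz group of `A` (`InLefschetz`). It contains the Lie algebra `𝔤` of the Hodge group.

**Theorem.** Let the Hodge group of `A` be of type `A_1` (the derived algebra of `𝔤 ⊗ ℂ` is a sum of Lie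
algebras `sl(2)`, or zero). Suppose that

* `A` is stably nondegenerate in the sense of Hazama and Murty: `𝔤 = 𝔩` (`StablyNondegenerate`), and the
  squares of the elements of `[𝔩, 𝔩]` commute with `𝔩` (`Planar`; this excludes only
  abelian varieties with factors of type III, for which the Hodge ring is not generated by divisors);
* the centre of `𝔤` satisfies the condition `ControlledCentre`. It is satisfied if the centres of the
  endomorphism algebras of the simple factors of type IV are abelian over `ℚ` (or if there are no such
  factors), see below.

Then for all natural numbers `m` and `n` every de Rham-Betti class in `H^1(A ^ n) ^ {⊗ 2 m} (m)` is a linear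
combination of products of Hodge classes in `H^1(A ^ n) ^ {⊗ 2} (1)`, and every class in
`H^{2 m}_Gr(A ^ n, ℚ(m))` is a linear combination of products of `m` divisor classes. **So `GPC^m(A ^ n)` is
true for all `m` and all `n`.**

## The abelian varieties

The conditions on `𝔤` say that the simple factors of `A` are of the following kinds, where `F` is the centre of
the algebra of endomorphisms of the factor:

1. elliptic curves, abelian surfaces with real or quaternionic multiplication; in general the types I and II
   of Albert with a commutant of dimension `4` over the totally real field `F` (the abelian varieties of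
   Hilbert modular varieties and of compact Shimura varieties of totally indefinite quaternion algebras);
2. type IV with a commutant `B` of dimension `4` over the CM field `F`, any `B`, for instance all simple
   abelian fourfolds with `End(A) ⊗ ℚ` a CM field of degree four, and the abelian varieties
   which belong to the unitary Shimura curves; their Hodge groups have in general compact factors;
3. abelian varieties with complex multiplication;

and that the Hodge group of `A` is as large as the endomorphisms permit. For example, let all simple factors of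
`A₀` be of the first kind, and let `A₁` be a simple abelian variety of the second kind which is stably
nondegenerate and whose Hodge group has a compact factor, for instance any simple abelian fourfold such
that `End(A₁) ⊗ ℚ` is a CM field of degree four. Then `A₀ × A₁` is stably nondegenerate: if the Lie algebra of its
Hodge group were not the product of those of `A₀` and `A₁`, then these would have a common simple factor over
`ℚ`, but all factors over `ℝ` of the Hodge group of `A₀` are not compact. So `GPC^m((A₀ × A₁) ^ n)` is true for all
`m` and `n`, for all such `A₀` and all simple abelian fourfolds `A₁` as above.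

The starting file `MaximalRealMult` is the case where all simple factors are of the kinds 1 and 3. The
previous version of this theorem (`UnitaryRankTwo`, removed) is the case of one simple factor of the
kind 2. (There the field `F` was assumed to be abelian over `ℚ`, or of degree four, or without relations between
the conjugates of its skew elements, and the indefinite places of `F` to be separated by
symmetric elements. The theorem below contains it on paper, with `C = A`: the latter assumption is the
condition on pairs of factors in `TypeA1`, and the others imply that `A` is stably nondegenerate, and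
`ControlledCentre`.) The starting file `UnitaryPowers` is on one factor of type IV with a commutant of
dimension `N ^ 2`, where for `N = 2` it is assumed that `B` is a division algebra. New are the factors of the
kind 2 for all `B`, and all products of abelian varieties of the three kinds. In the literature I know the theorems of Kreutz, Shen and
Vial (products of elliptic curves, some abelian surfaces) and of Ji (simple abelian fourfolds of type IV with
complex multiplication, or such that `End(A) ⊗ ℚ` is a quadratic field).

Nothing is assumed about periods: `AbVar` is the description of an abelian variety over `ℚ̄` by theta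
functions (see `Pool/Agent/Y102/AVDefs.lean`, where it is explained why every abelian variety has it),
and the transcendence theorems which are used, the theorem of Schneider and Lang and the
transcendence of `π`, are proved in this repository.

## Type `A_1`

Let `𝔤` be the Lie algebra of the endomorphisms of `H_1(A, ℚ)` which annihilate all classes that are Hodge
classes and de Rham-Betti classes (`InLie`); by the theorem of Deligne it is the Lie algebra of the Hodge
group of `A`. The Hodge group is *of type `A_1`* if the derived algebra of `𝔤 ⊗ ℂ` is a sum of Lie algebras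
`sl(2)`. By the classification of the symplectic representations of Hodge groups (Deligne, Satake) the
irreducible constituents of `H_1(A, ℂ)` are then tensor products `V_S ⊗ χ` of the standard representations of
the factors `i ∈ S` and of a character of the centre. In `TypeA1` the factors are given by
homomorphisms `φ i` (without unit element) from the algebra of the matrices of size two to the
endomorphisms of `H_1(A, ℂ)`, such that `𝔤 ⊗ ℂ` is the sum of its centre and of the `φ i (sl(2))`. Let
`i ≠ k` be two factors. We assume that one of the following is true: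

* (`CompactAt`) for some automorphism `σ` of `ℂ` one of the conjugates `σ(i)` and `σ(k)` is a compact
  factor (it commutes with the complex structure of `H_1(A, ℝ)`), and the other one is not compact;
* (`InSeparatedPosition`) there is a constituent on which `i` and `k` both act nontrivially, or there are
  constituents `V ⊗ U` and `V' ⊗ U`, where `V` and `V'` are the standard representations of `i` and `k`, and
  `U` is a representation of the other factors and of the centre.

**Every abelian variety `A` over `ℚ̄` whose Hodge group is of type `A_1` is a factor of an abelian variety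
over `ℚ̄` with this property.** Suppose that the first condition is false for `i` and `k`, and that `k` acts
trivially on a constituent `V ⊗ U`, where `V` is the standard representation of `i`. Then for all `σ` the
conjugate by `σ` of `V' ⊗ U` has the same Hodge types as that of `V ⊗ U`, that is `(-1, 0)` and `(0, -1)`, as
`σ(i)` and `σ(k)` are both compact or both noncompact. So there is an abelian variety `A'` whose constituents
are these representations, and it is defined over `ℚ̄`, as it has the same adjoint Hodge group as `A` (the
maps between the Shimura varieties are defined over `ℚ̄`). The factors `i` and `k` are in separated position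
for `A × A'`, whose Hodge group has the same adjoint group; and its centre is zero if the centre of the Hodge
group of `A` is finite. In the theorem this larger
abelian variety is called `C`. The Lie algebra of the Hodge group of `C` is mapped onto that of `A`, so
`StablyNondegenerate` says that all elements of `𝔩` are restrictions of elements of the Lie algebra of the
Hodge group of `C`. For the abelian varieties of the second kind above one can take `C = A` if the indefinite
places are separated.

## The centre

The condition `ControlledCentre` for `C`: it is a factor of an abelian variety `D` such that the centre of the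
Lie algebra of the Hodge group of `D` is rigid, and all elements of the centre of that of `C` are restrictions
of elements of it. *Rigid* means: for every element `X` of the centre which generates it relative to the derived
algebra (`Generates`), all relations `∑ x i = 0` between eigenvalues of `X` for eigenvectors `v i` imply the
relations `∑ y i = 0` for the eigenvalues of all elements `Y` of the centre, for the same eigenvectors.
If `A` has no factor of type IV then the centre is zero, and the condition is true with `D = C`.

**The condition is true for all `A` such that the centres of the endomorphism algebras of the simple factors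
of type IV are abelian over `ℚ`.** Let `L` be a CM field which contains these centres and is Galois over `ℚ`
with an abelian group `Γ`, and let `D` be the product of `C` and of the abelian varieties `A_Φ` with complex
multiplication by `L` and of the type `Φ`, for all CM types `Φ ⊆ Γ`. (The characters of the centre which
occur in `C` are those which occur in `A`, so they are defined over `L`.) The centre of the Lie algebra of the
Hodge group of `D` consists of the elements `x ∈ L` with `x̄ = - x`: it is the odd part of the Lie algebra of
the Serre torus of `L`, as this torus is generated by the conjugates of its cocharacter, and is mapped onto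
the centre for `A`. The eigenvalues of `x` on `H_1(A_Φ, ℂ)` are the conjugates of `∑_{t ∈ Φ} t⁻¹(x)`, and all
the eigenvalues on `H_1(D, ℂ)` are of the form `∑_t c_t t⁻¹(x)` with odd rational functions `c` on `Γ`. A
nonzero odd function `f` with the values `0`, `1`, `-1` is the difference of two CM types `Φ`, `Φ'`, and so
`∑_t f_t t⁻¹(x) ≠ 0` if `x` is generating: otherwise a homomorphism between the homologies of `A_Φ` and `A_Φ'`
commutes with `x`, and not with the centre. The odd functions `c` with `∑_t c_t t⁻¹(x) = 0` are an ideal of
`ℚ[Γ]`. If there is a function `c ≠ 0` in it, let `χ` be a character of `Γ` with `∑_t c_t χ(t) ≠ 0`, let `N` be the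
kernel of `χ`, and `τ_q ∈ Γ` an element whose image in the cyclic group `Γ / N` is of order `q`, for all prime
numbers `q` which divide the order of this group. The element `f = ∏_q (1 - τ_q) ∑_{n ∈ N} n` has the
coefficients `0`, `1`, `-1`, and it is in the ideal, because `ψ(f) ≠ 0` for the conjugates `ψ` of `χ` only.
This is a contradiction, so the only relations between the eigenvalues of `x` are those which hold for
all elements of the centre. (This is the argument of the starting file `MP_470b79_ag.AbelianCMTensors` on
complex multiplication by abelian fields.)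

Let `A` be a simple abelian fourfold such that `End(A) ⊗ ℚ` is a CM field `F` of degree four. Then `A` is of
type `A_1` with one compact and one noncompact factor (Shimura), and the centre consists of the elements
`x ∈ F` with `x̄ = - x`. If `F` is not abelian over `ℚ` then it has no imaginary quadratic subfield, and so
different conjugates `a`, `b ≠ - a` of such an element `x ≠ 0` are linearly independent over `ℚ`, and the
centre is rigid. So `ControlledCentre` (with `C = D = A`, or with `D` as above) holds for all simple abelian fourfolds
with `End(A) ⊗ ℚ` a quartic CM field, and for their products `C = A₀ × A` with the abelian varieties `A₀` of the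
first kind, whose Hodge groups have no centre. These `C` satisfy `TypeA1`: the pairs of factors of `A₀` are in
separated position, and in all other pairs one factor has a compact conjugate and the conjugates of the
other one for the same `σ` are not compact.

## The classes

The cohomology of the abelian variety `A ^ n` in degree `2 m` is the space of the alternating forms in
`2 m` variables on `H_1(A ^ n, ℚ) = H_1(A, ℚ) ^ n`, and `H^{2m}_dR(A ^ n / ℚ̄)` is the exterior power of
`H^1_dR(A ^ n / ℚ̄)`, which has a basis consisting of the elements `A.dR i` on the `n` factors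
(`dRPow`). So `H^{2m}_Gr(A ^ n, ℚ(m))` is the space of the rational alternating forms `φ` such that
`(2 π i) ^ m φ` is a combination of products of elements of this basis, with algebraic
coefficients (`IsDRB`). The variables are indexed by `Fin m × Fin 2`. A rational alternating form in two
variables which is a Hodge class is the class of a divisor, with rational coefficients, by the theorem of
Lefschetz (`IsDivisorClass`).

## Proof

1. Let `𝔥` be the Lie algebra of the endomorphisms of `H_1(C, ℚ)` which annihilate all de Rham-Betti classes.
   It acts semisimply, with the same commutant as the Lie algebra of the Hodge group of `C` (the theorem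
   of Schneider and Lang). As `C` is of type `A_1`, it contains the derived algebra: this is
   `A1.WeakA1.der_le`, the main step of `MP_f11a48_ag.TypeA1Motives` (lemmas of Goursat, Kolchin and Ribet;
   the conjugates of linked factors are linked; compact and noncompact factors are not linked). By
   `ControlledCentre` it contains the centre. So, by `StablyNondegenerate`, all elements of `𝔩` annihilate
   all de Rham-Betti classes of `A` (`PL.HS`), and `𝔤 = 𝔩`.
2. Let `φ i` be the homomorphisms from the algebra of the matrices of size two to the endomorphisms of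
   `H_1(A, ℂ)`, induced by those for `C`. By `Planar` the square of `φ i (x) + φ k (y)` commutes with `𝔩 ⊗ ℂ`, so that
   `φ i (x) φ k (y) = 0` for `i ≠ k` (`PL.phi_orth`).
3. *The first fundamental theorem* for `𝔩 ⊗ ℂ` (`PL.fft`). The centre of `B ⊗ ℂ` has a basis of idempotents
   `π x`, and an involution `bar` (`PI`). `H_1(A, ℂ)` has a basis adapted to the `π x` and the `φ i` (`BAS`): planes of
   a colour `x` on which one `φ i` acts by the standard representation, and lines of a colour `x ≠ bar x`. A multilinear
   form which is annihilated by `𝔩 ⊗ ℂ` is a function `F` of words in these letters (`BRG`). The invariants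
   of a product of groups `SL_2`: if `s` letters of the word `a` belong to the place of the letter `k`, then
   `((s + 2) / 2) F (a) = ∑_l ε (a_k, a_l) (F (a[k:=0][l:=1]) - F (a[k:=1][l:=0]))`, where `ε` is the determinant,
   and this gives an expansion in products of determinants (`SL2`). As the colours `x` and `bar x` occur equally
   often, the letters can be paired such that the pairs are of the form `(x, bar x)`, by the relation
   `ε (a, b) ε (c, d) = ε (a, c) ε (b, d) - ε (a, d) ε (b, c)` (`REP`). The bilinear forms of these pairs are given by
   endomorphisms of `A` (`QF`). At last one descends to the rational numbers (`N441.LCDESC`), and takes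
   powers of `A` and alternating forms (`N208.LC.main_pow`, `alt_span`).

The parts `PI`, `BAS`, `BRG`, `SL2`, `REP`, `LIN`, `EQV`, `WORD`, `QF` were written in parallel by several authors
(see the files which are imported in `Pool/Agent/Run7/h358/PL/Fin.lean`).
-/

open Module Matrix Pool.Agent.Y102 Pool.Agent.W516.DR Pool.Agent.H204R3.GP

noncomputable section

namespace Pool.Agent.Results.MP_bf54cf_ag.StablyNondegenerateA1

variable {g : ℕ} (A : AbVar g)

/-! ### The centre of the Lie algebra of the Hodge group -/

/-- The multilinear forms in `2m` variables in the rational homology. -/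
abbrev Form (m : ℕ) : Type := MultilinearMap ℚ (fun _ : Fin m × Fin 2 => A.H1) ℚ

/-- `φ` is a de Rham-Betti class in `H^1(A) ^ {⊗ 2m} (m)`. -/
def IsDRBForm {m : ℕ} (φ : Form A m) : Prop :=
  IsDeRhamBettiForm QBar A.dR (2 * Real.pi * Complex.I) m φ

/-- `φ` is a Hodge class in `H^1(A) ^ {⊗ 2m} (m)`. -/
def IsHodge {m : ℕ} (φ : Form A m) : Prop := IsHodgeTensor (A.per : A.H1 →+ (Fin g → ℂ)) φ

/-- The endomorphism `X` annihilates the form `φ` (as a derivation). -/
def Annihilates {m : ℕ} (X : Module.End ℚ A.H1) (φ : Form A m) : Prop :=
  ∀ v, ∑ k, φ (Function.update v k (X (v k))) = 0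

/-- `X` is in the Lie algebra `𝔤`: it annihilates all classes that are Hodge classes and
de Rham-Betti classes. -/
def InLie (X : Module.End ℚ A.H1) : Prop :=
  ∀ (m : ℕ) (φ : Form A m), IsHodge A φ → IsDRBForm A φ → Annihilates A X φ

/-- `X` is an element of the centre of `𝔤`. -/
def InCentre (X : Module.End ℚ A.H1) : Prop := InLie A X ∧ ∀ Y, InLie A Y → Y * X = X * Y

/-- The algebra of the endomorphisms of `H_1(A, ℂ)`, as matrices for the basis of the lattice. -/
def toC (X : Module.End ℚ A.H1) : Matrix (Fin (2 * g)) (Fin (2 * g)) ℂ :=
  Matrix.of fun i j => (X (Pi.single j 1) i : ℂ)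

/-- The endomorphisms which commute with `X` and with the derived algebra of `𝔤` commute with the
centre of `𝔤`. -/
def Generates (X : Module.End ℚ A.H1) : Prop :=
  ∀ T : Module.End ℚ A.H1,
    (∀ Y, InLie A Y → ∀ Z, InLie A Z → T * (Y * Z - Z * Y) = (Y * Z - Z * Y) * T) →
    T * X = X * T → ∀ Z, InCentre A Z → T * Z = Z * T

/-- All relations `∑ i, x i = 0` between eigenvalues of `X` imply the relation `∑ i, y i = 0` between
the eigenvalues of `Y` for the same eigenvectors. -/
def RelationsOf (X Y : Module.End ℚ A.H1) : Prop :=
  ∀ (r : ℕ) (v : Fin r → Fin (2 * g) → ℂ) (x y : Fin r → ℂ),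
    (∀ i, v i ≠ 0 ∧ Matrix.mulVec (toC A X) (v i) = x i • v i ∧
      Matrix.mulVec (toC A Y) (v i) = y i • v i) → ∑ i, x i = 0 → ∑ i, y i = 0

/-- The centre of `𝔤` is rigid: the relations between the eigenvalues of a generating element of the
centre hold for all elements of the centre. -/
def RigidCentre : Prop :=
  ∀ X, InCentre A X → Generates A X → ∀ Y, InCentre A Y → RelationsOf A X Y

/-! ### Type `A_1` -/

/-- The complex Lie algebra `𝔤 ⊗ ℂ`, acting on `H_1(A, ℂ)`. -/
def lieC : Submodule ℂ (Matrix (Fin (2 * g)) (Fin (2 * g)) ℂ) :=
  Submodule.span ℂ {Y | ∃ X, InLie A X ∧ Y = toC A X}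

/-- `z` commutes with `𝔤 ⊗ ℂ`. -/
def CommutesWithLie (z : Matrix (Fin (2 * g)) (Fin (2 * g)) ℂ) : Prop := ∀ Y ∈ lieC A, z * Y = Y * z

/-- The complex structure: the matrix of the multiplication by `i` on `H_1(A, ℝ) = ℂ ^ g`, in the basis
of the lattice. -/
def complexStructure : Matrix (Fin (2 * g)) (Fin (2 * g)) ℂ :=
  Matrix.of fun i j => ((A.lam.repr (Complex.I • A.lam j) i : ℝ) : ℂ)

/-- The conjugate by the automorphism `σ` of `ℂ` of the factor `ψ` is compact: it commutes with the
complex structure. -/
def CompactAt (σ : ℂ ≃+* ℂ)
    (ψ : Matrix (Fin 2) (Fin 2) ℂ →ₗ[ℂ] Matrix (Fin (2 * g)) (Fin (2 * g)) ℂ) : Prop :=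
  ∀ a, complexStructure A * (ψ a).map σ = (ψ a).map σ * complexStructure A

/-- The factors `i` and `k` act nontrivially on a common constituent of `H_1(A, ℂ)`, or there are
constituents `V ⊗ U` and `V' ⊗ U`, where `V` and `V'` are the standard representations of the factors `i`
and `k`, and `U` is a representation of the other factors and of the centre. -/
def InSeparatedPosition {n : ℕ}
    (φ : Fin n → Matrix (Fin 2) (Fin 2) ℂ →ₗ[ℂ] Matrix (Fin (2 * g)) (Fin (2 * g)) ℂ)
    (i k : Fin n) : Prop :=
  φ i 1 * φ k 1 ≠ 0 ∨ ∃ N : Matrix (Fin (2 * g)) (Fin (2 * g)) ℂ,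
    N ≠ 0 ∧ φ i 1 * N = N ∧ N * φ k 1 = N ∧
      (∀ l, l ≠ i → l ≠ k → ∀ a, N * φ l a = φ l a * N) ∧
      ∀ z ∈ lieC A, CommutesWithLie A z → N * z = z * N

/-- **Type `A_1`.** The Lie algebra `𝔤 ⊗ ℂ` is the sum of its centre and of `n` Lie algebras `sl(2)`,
which act by tensor products of standard representations. For two factors some automorphism of `ℂ` maps one
of them to a compact factor and the other one to a noncompact factor, or they are in separated
position. -/
def TypeA1 : Prop :=
  ∃ (n : ℕ) (φ : Fin n → Matrix (Fin 2) (Fin 2) ℂ →ₗ[ℂ] Matrix (Fin (2 * g)) (Fin (2 * g)) ℂ),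
    (∀ i a b, φ i (a * b) = φ i a * φ i b) ∧
    (∀ i k, i ≠ k → ∀ a b, φ i a * φ k b = φ k b * φ i a) ∧
    (∀ i, φ i 1 ≠ 0) ∧
    (∀ i x, x.trace = 0 → φ i x ∈ lieC A) ∧
    (∀ X ∈ lieC A, ∃ x : Fin n → Matrix (Fin 2) (Fin 2) ℂ, (∀ i, (x i).trace = 0) ∧
      CommutesWithLie A (X - ∑ i, φ i (x i))) ∧
    ∀ i k, i ≠ k → InSeparatedPosition A φ i k ∨
      ∃ σ : ℂ ≃+* ℂ, ¬ (CompactAt A σ (φ i) ↔ CompactAt A σ (φ k))

/-- `f` is a homomorphism (up to isogeny) from `A` to `C`: it is given by a linear map of the tangent
spaces, and the pull backs of the algebraic differential forms are algebraic. -/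
def IsHomomorphism {g' : ℕ} (C : AbVar g') (f : A.H1 →ₗ[ℚ] C.H1) : Prop :=
  (∃ F : (Fin g → ℂ) →ₗ[ℂ] (Fin g' → ℂ), ∀ w, F (A.per w) = C.per (f w)) ∧
    ∃ e : Fin g' ⊕ Fin g' → Fin g ⊕ Fin g → QBar,
      ∀ i w, C.dR i (f w) = ∑ j, algebraMap QBar ℂ (e i j) * A.dR j w

/-- `A` is a direct factor of `C`, up to isogeny, with the inclusion `f` and the projection `p`. -/
structure IsFactor {g' : ℕ} (C : AbVar g') (f : A.H1 →ₗ[ℚ] C.H1) (p : C.H1 →ₗ[ℚ] A.H1) :
    Prop where
  inclusion : IsHomomorphism A C f
  projection : IsHomomorphism C A p
  split : ∀ w, p (f w) = w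

/-- `A` is a factor of an abelian variety `C` such that the centre of the Lie algebra of the Hodge
group of `C` is rigid and acts on `A` through all elements of the centre of `𝔤`. -/
def ControlledCentre : Prop :=
  ∃ (g' : ℕ) (C : AbVar g') (f : A.H1 →ₗ[ℚ] C.H1) (p : C.H1 →ₗ[ℚ] A.H1),
    IsFactor A C f p ∧ RigidCentre C ∧
    ∀ Y, InCentre A Y → ∃ X, InCentre C X ∧ ∀ v, p (X (f v)) = Y v

/-! ### Stably nondegenerate abelian varieties -/

/-- `P` is an endomorphism of `A` (up to isogeny), in terms of its action on `H_1(A, ℚ)`: it respects
the de Rham structure. (By the theorem of Bost, which is proved in `Pool.Agent.Y102.AbVar.hodge_end`,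
these are the elements of `End(A) ⊗ ℚ`.) -/
def IsEndo (P : Module.End ℚ A.H1) : Prop := IsDeRhamBettiEnd QBar A.dR P

/-- `X` is in the Lie algebra `𝔩` of the Lefschetz group: it commutes with the endomorphisms of `A` and it is
skew-symmetric for the polarization. -/
def InLefschetz (X : Module.End ℚ A.H1) : Prop :=
  (∀ P, IsEndo A P → X * P = P * X) ∧ ∀ u v, A.om (X u) v + A.om u (X v) = 0

/-- The factor `A` of `C` is stably nondegenerate: all elements of `𝔩` are restrictions of elements of the
Lie algebra of the Hodge group of `C`. -/
def StablyNondegenerate {g' : ℕ} (C : AbVar g') (f : A.H1 →ₗ[ℚ] C.H1) (p : C.H1 →ₗ[ℚ] A.H1) : Prop :=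
  ∀ T, InLefschetz A T → ∃ X, InLie C X ∧ ∀ v, p (X (f v)) = T v

/-- The derived algebra of `𝔩`. -/
def derivedLefschetz : Submodule ℚ (Module.End ℚ A.H1) :=
  Submodule.span ℚ {Z | ∃ X, InLefschetz A X ∧ ∃ Y, InLefschetz A Y ∧ Z = X * Y - Y * X}

/-- The squares of the elements of the derived algebra commute with `𝔩`. -/
def Planar : Prop := ∀ X ∈ derivedLefschetz A, ∀ Y, InLefschetz A Y → X * X * Y = Y * (X * X)

/-! ### The classes on the powers -/

/-- The inclusion of the rational homology of `A ^ n` in the tangent space. -/
def perPow (n : ℕ) : (Fin n → A.H1) →+ (Fin n → Fin g → ℂ) where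
  toFun v j := A.per (v j)
  map_zero' := by
    funext j
    exact map_zero _
  map_add' u v := by
    funext j
    exact map_add _ _ _

/-- The basis of `H^1_dR(A ^ n / ℚ̄)`. -/
def dRPow (n : ℕ) (i : (Fin g ⊕ Fin g) × Fin n) : (Fin n → A.H1) →ₗ[ℚ] ℂ :=
  (A.dR i.1).comp (LinearMap.proj i.2)

/-- `H^1(A ^ n, ℚ) ^ {⊗ 2m}`: the multilinear forms in `2 m` variables in `H_1(A ^ n, ℚ)`. -/
abbrev TensorPow (m n : ℕ) : Type := MultilinearMap ℚ (fun _ : Fin m × Fin 2 => Fin n → A.H1) ℚ

/-- `H^{2m}(A ^ n, ℚ)`: the alternating forms in `2 m` variables in `H_1(A ^ n, ℚ)`. -/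
abbrev Cohomology (m n : ℕ) : Type := (Fin n → A.H1) [⋀^Fin m × Fin 2]→ₗ[ℚ] ℚ

/-- The bilinear forms on `H_1(A ^ n, ℚ)`. -/
abbrev Bilinear (n : ℕ) : Type := (Fin n → A.H1) →ₗ[ℚ] (Fin n → A.H1) →ₗ[ℚ] ℚ

/-- `φ` is a de Rham-Betti class in `H^1(A ^ n) ^ {⊗ 2m} (m)`. -/
def IsDRB {m n : ℕ} (φ : TensorPow A m n) : Prop :=
  IsDeRhamBettiForm QBar (dRPow A n) (2 * Real.pi * Complex.I) m φ

/-- `φ` is an element of `H^{2m}_Gr(A ^ n, ℚ(m))`. -/
def IsGr {m n : ℕ} (φ : Cohomology A m n) : Prop := IsDRB A φ.toMultilinearMap

/-- `φ` is a linear combination of products of Hodge classes in `H^1(A ^ n) ^ {⊗ 2} (1)`, where the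
`2 m` variables are distributed in some way. -/
def IsDecomposable {m n : ℕ} (φ : TensorPow A m n) : Prop :=
  φ ∈ Submodule.span ℚ {ψ | IsProductOfHodgeBilinear (perPow A n) ψ}

/-- The alternating bilinear form `b` is a Hodge class in `H^2(A ^ n) (1)`, that is (Lefschetz), a
rational multiple of the class of a divisor. -/
def IsDivisorClass {n : ℕ} (b : Bilinear A n) : Prop :=
  IsHodgeBilinear (perPow A n) b ∧ ∀ u, b u u = 0

/-- The product of the values of the bilinear forms `b l` on the vectors `v (l, 0)`, `v (l, 1)`. -/
def prodAt {m n : ℕ} (b : Fin m → Bilinear A n) (v : Fin m × Fin 2 → Fin n → A.H1) : ℚ :=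
  ∏ l, b l (v (l, 0)) (v (l, 1))

/-- The alternating form `ψ` is the product of the classes `b l` of degree two. -/
def IsProduct {m n : ℕ} (b : Fin m → Bilinear A n) (ψ : Cohomology A m n) : Prop :=
  ∀ v, ψ v = ∑ σ : Equiv.Perm (Fin m × Fin 2), ((Equiv.Perm.sign σ : ℤ) : ℚ) * prodAt A b (v ∘ σ)

/-- `φ` is a linear combination of products of divisor classes. -/
def IsSumOfProducts {m n : ℕ} (φ : Cohomology A m n) : Prop :=
  φ ∈ Submodule.span ℚ {ψ | ∃ b : Fin m → Bilinear A n, (∀ l, IsDivisorClass A (b l)) ∧
    IsProduct A b ψ}

/-! ### The proof -/

variable {A}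

theorem RigidCentre.toRigid {g' : ℕ} {C : AbVar g'} (hz : RigidCentre C) : N208.CT.Rigid C := by
  intro X hX hg Y hY
  refine dom_of_matrix (hz X ⟨hX.1, hX.2⟩ (fun T hT hTX Z hZ => ?_) Y ⟨hY.1, hY.2⟩)
  exact hg T hT hTX Z ⟨hZ.1, hZ.2⟩

theorem complexStructure_eq (A : AbVar g) :
    complexStructure A = Run7.h358.A1.cR (Run7.h358.A1.JM A) := by
  ext i j
  change ((A.lam.repr (Complex.I • A.lam j) i : ℝ) : ℂ) =
    algebraMap ℝ ℂ (LinearMap.toMatrix A.lam A.lam AbVar.JJ i j)
  rw [LinearMap.toMatrix_apply]
  rfl

theorem TypeA1.toWeak (h : TypeA1 A) : ∃ (n : ℕ)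
    (φ : Fin n → Matrix (Fin 2) (Fin 2) ℂ →ₗ[ℂ] Matrix (Fin (2 * g)) (Fin (2 * g)) ℂ),
    Run7.h358.A1.WeakA1 A φ := by
  obtain ⟨n, φ, h1, h2, h3, h4, h5, h6⟩ := h
  refine ⟨n, φ, ⟨h1, h2, h3, h4, h5⟩, fun i k hik => ?_⟩
  rcases h6 i k hik with h7 | ⟨σ, h7⟩
  · exact Or.inl h7
  · right
    refine ⟨σ, ?_⟩
    unfold CompactAt at h7
    rw [complexStructure_eq] at h7
    exact h7

theorem ControlledCentre.le (h : ControlledCentre A) : A.CN ≤ A.LA := by
  intro Y hY
  obtain ⟨g', D, f, p, hf, hr, hc⟩ := h
  obtain ⟨X, hX, hXY⟩ := hc Y ⟨hY.1, hY.2⟩
  have h1 : D.CN ≤ D.LA := D.centre_le fun X hX hg Y hY => by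
    refine dom_of_matrix (hr X ⟨hX.1, hX.2⟩ (fun T hT hTX Z hZ => ?_) Y ⟨hY.1, hY.2⟩)
    exact hg T hT hTX Z ⟨hZ.1, hZ.2⟩
  exact N208.LC.mem_LA_of_fac ⟨hf.split, hf.projection.2⟩ (h1 ⟨hX.1, hX.2⟩) hXY

theorem inLefschetz_iff (X : Module.End ℚ A.H1) :
    InLefschetz A X ↔ X ∈ N208.BT.CB A ∧ ∀ u v, A.om (X u) v + A.om u (X v) = 0 :=
  ⟨fun h => ⟨fun P hP => h.1 P (A.mem_EA.1 hP), h.2⟩,
    fun h => ⟨fun P hP => h.1 P (A.mem_EA.2 hP), h.2⟩⟩

/-- **Theorem.** Let `A` be an abelian variety over `ℚ̄`, a factor of an abelian variety `C` whose Hodge group is
of type `A_1`, with the condition `ControlledCentre` on the centre. Let `A` be stably nondegenerate, and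
let `Planar` be satisfied. Then for all `m` and `n`

1. every de Rham-Betti class in `H^1(A ^ n) ^ {⊗ 2m} (m)` is a linear combination of products of Hodge
   classes of degree two;
2. every class in `H^{2m}_Gr(A ^ n, ℚ(m))` is a linear combination of products of divisor classes. -/
theorem result {g g' : ℕ} (A : AbVar g) (C : AbVar g') (f : A.H1 →ₗ[ℚ] C.H1)
    (p : C.H1 →ₗ[ℚ] A.H1) (hf : IsFactor A C f p) (hC : TypeA1 C) (hz : ControlledCentre C)
    (hN : StablyNondegenerate A C f p) (hP : Planar A) (m n : ℕ) :
    (∀ φ : TensorPow A m n, IsDRB A φ → IsDecomposable A φ) ∧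
      ∀ φ : Cohomology A m n, IsGr A φ → IsSumOfProducts A φ := by
  obtain ⟨k, φ, hφ⟩ := hC.toWeak
  have hle : C.NA ≤ C.LA := hφ.derFull.na_le C.full_LA hz.le
  have hfac : R917.DT.Fac A C f p :=
    ⟨⟨hf.inclusion.1, hf.inclusion.2⟩, ⟨hf.projection.1, hf.projection.2⟩, hf.split⟩
  have hS : Run7.h358.PL.HS A := by
    intro T hT hTs
    obtain ⟨X, hX, hXT⟩ := hN T ((inLefschetz_iff T).2 ⟨hT, hTs⟩)
    exact N208.LC.mem_LA_of_fac ⟨hf.split, hf.projection.2⟩ (hle hX) hXT
  have hL : ∀ T ∈ A.LA, InLefschetz A T := fun T hT =>
    (inLefschetz_iff T).2 ⟨N492.LCAP1.LA_le_CB hT, fun u v => A.LA_skew hT u v⟩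
  have hPl : Run7.h358.PL.HP A := by
    intro X hX Y hY
    refine hP X ?_ Y (hL Y hY)
    refine (Submodule.span_mono ?_) hX
    rintro _ ⟨X, hX, Y, hY, rfl⟩
    exact ⟨X, hL X hX, Y, hL Y hY, rfl⟩
  have hl : ∀ T ∈ A.LA, ∃ Y ∈ C.NA, ∀ v, p (Y (f v)) = T v := by
    intro T hT
    obtain ⟨X, hX, hXT⟩ := hN T (hL T hT)
    exact ⟨X, hX, hXT⟩
  have h1 := fun φ' hφ' => N208.LC.main_pow (A := A) (m := m) (n := n)
    (fun ψ hψ => Run7.h358.PL.fin hφ.typ hfac hS hPl hl hψ) φ' hφ'
  exact ⟨h1, fun φ' hφ' => N208.LC.alt_span φ' (h1 _ hφ')⟩

end Pool.Agent.Results.MP_bf54cf_ag.StablyNondegenerateA1
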